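import Pool.Agent.helper84.VN.Spec4m
import Pool.Agent.helper96.VQ.DA4

/-! Row HN4 of project VN (MP_07c750_an): Lipschitz images and the Haar measure (variant of row DA4 of VQ). -/

set_option autoImplicit false

open scoped MatrixGroups ContDiff Topology UpperHalfPlane ComplexConjugate ENNReal
open UpperHalfPlane MeasureTheory Filter Set

namespace Pool.Agent.VN

open Pool.Agent.RS Pool.Agent.VQ
open Pool.Agent.VQE (nm mt)

theorem HN4_ent (g : SL(2, ℝ)) (θ : ℝ) (i : Fin 2) : (g * kM θ).1 i 0 = g.1 i 0 * Real.cos θ + g.1 i 1 * -Real.sin θ ∧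
    (g * kM θ).1 i 1 = g.1 i 0 * Real.sin θ + g.1 i 1 * Real.cos θ :=
  ⟨DA4_mul g (kM θ) i 0, DA4_mul g (kM θ) i 1⟩

theorem HN4_lip (c L r : ℝ) (y : ℝ → ℝ → SL(2, ℝ)) (hL : LN c L r y) (z z' : Fin 3 → ℝ) (hz : z ∈ Icc (fun _ => -r) (fun _ => r))
    (hz' : z' ∈ Icc (fun _ => -r) (fun _ => r)) (i j : Fin 2) :
    |(TN3 y z).1 i j - (TN3 y z').1 i j| ≤ 12 * (c * |z 0 - z' 0| + L * |z 1 - z' 1| + |z 2 - z' 2|) := by
  have hr := hL.r0
  have hL0 : 0 < L := lt_of_lt_of_le one_pos hL.L1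
  have hm : ∀ z : Fin 3 → ℝ, z ∈ Icc (fun _ => -r) (fun _ => r) → ∀ k, |z k| ≤ r := fun z hz k =>
    abs_le.2 ⟨hz.1 k, hz.2 k⟩
  have h0r : (0 : ℝ) ∈ Icc (-r) r := ⟨by linarith, hr.le⟩
  have hn : ∀ u s : ℝ, |u| ≤ r → |s| ≤ r → nm (y u s) ≤ 1 / 10 := by
    intro u s hu hs
    have h1 := hL.lip 0 h0r u (abs_le.1 hu) 0 h0r s (abs_le.1 hs)
    rw [hL.zero, inv_one, one_mul, zero_sub, abs_neg, zero_sub, abs_neg] at h1
    have h2 : c * |u| ≤ c * r := mul_le_mul_of_nonneg_left hu hL.c0.le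
    have h3 : L * |s| ≤ L * r := mul_le_mul_of_nonneg_left hs hL0.le
    linarith [hL.cr, hL.Lr]
  have hY := hn _ _ (hm z hz 0) (hm z hz 1)
  have hY' := hn _ _ (hm z' hz' 0) (hm z' hz' 1)
  have hD := hL.lip (z 0) (abs_le.1 (hm z hz 0)) (z' 0) (abs_le.1 (hm z' hz' 0)) (z 1) (abs_le.1 (hm z hz 1)) (z' 1) (abs_le.1 (hm z' hz' 1))
  obtain ⟨d0, d1⟩ := DA4_dif (y (z 0) (z 1)) (y (z' 0) (z' 1)) _ hY hD i
  obtain ⟨b0', b1'⟩ := DA4_big (y (z' 0) (z' 1)) hY' i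
  obtain ⟨e0, e1⟩ := HN4_ent (y (z 0) (z 1)) (z 2) i
  obtain ⟨e0', e1'⟩ := HN4_ent (y (z' 0) (z' 1)) (z' 2) i
  have hb0 := b0'.trans (by norm_num : (11 / 10 : ℝ) ≤ 2)
  have hb1 := b1'.trans (by norm_num : (11 / 10 : ℝ) ≤ 2)
  have x1 : |Real.cos (z 2) - Real.cos (z' 2)| ≤ |z 2 - z' 2| := Real.abs_cos_sub_cos_le _ _
  have x2 : |Real.sin (z 2) - Real.sin (z' 2)| ≤ |z 2 - z' 2| := Real.abs_sin_sub_sin_le _ _
  have x3 : |-Real.sin (z 2) - -Real.sin (z' 2)| ≤ |z 2 - z' 2| := by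
    have e : -Real.sin (z 2) - -Real.sin (z' 2) = -(Real.sin (z 2) - Real.sin (z' 2)) := by ring
    rw [e, abs_neg]
    exact x2
  have y1 : |Real.cos (z 2)| ≤ 2 := (Real.abs_cos_le_one _).trans (by norm_num)
  have y2 : |Real.sin (z 2)| ≤ 2 := (Real.abs_sin_le_one _).trans (by norm_num)
  have y3 : |-Real.sin (z 2)| ≤ 2 := by rw [abs_neg]; exact y2
  have hδ : 0 ≤ c * |z 0 - z' 0| := mul_nonneg hL.c0.le (abs_nonneg _)
  have hξ : 0 ≤ L * |z 1 - z' 1| := mul_nonneg hL0.le (abs_nonneg _)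
  have hσ : 0 ≤ |z 2 - z' 2| := abs_nonneg _
  revert j
  rw [Fin.forall_fin_two]
  constructor
  · unfold TN3
    rw [e0, e0', add_sub_add_comm]
    have h := DA4_pe _ _ _ _ _ _ d0 x1 y1 hb0
    have h' := DA4_pe _ _ _ _ _ _ d1 x3 y3 hb1
    refine (abs_add_le _ _).trans ?_
    linarith
  · unfold TN3
    rw [e1, e1', add_sub_add_comm]
    have h := DA4_pe _ _ _ _ _ _ d0 x2 y2 hb0
    have h' := DA4_pe _ _ _ _ _ _ d1 x1 y1 hb1
    refine (abs_add_le _ _).trans ?_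
    linarith

theorem HN4_kMc : Continuous kM := by
  refine (Matrix.SpecialLinearGroup.isClosedEmbedding_val (n := Fin 2) (R := ℝ)).isEmbedding.continuous_iff.2 ?_
  refine continuous_pi fun i => continuous_pi fun j => ?_
  fin_cases i <;> fin_cases j
  · exact Real.continuous_cos
  · exact Real.continuous_sin
  · exact Real.continuous_sin.neg
  · exact Real.continuous_cos

theorem HN4_Thc (y : ℝ → ℝ → SL(2, ℝ)) (hy : Continuous (fun p : ℝ × ℝ => y p.1 p.2)) : Continuous (TN3 y) := by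
  have h1 : Continuous (fun z : Fin 3 → ℝ => ((z 0, z 1) : ℝ × ℝ)) := (continuous_apply 0).prodMk (continuous_apply 1)
  exact (hy.comp h1).mul (HN4_kMc.comp (continuous_apply 2))

theorem HN4_proof (hHAL : VQE.HAL_stmt) : HN4_stmt := by
  intro L hL1
  obtain ⟨C, hC⟩ := hHAL {g : SL(2, ℝ) | nm g ≤ 4} DA4_cpt
  obtain ⟨T, hT⟩ : ∃ T : ℝ≥0∞, T = C * ((36 : NNReal) : ℝ≥0∞) ^ (3 : ℝ) := ⟨_, rfl⟩
  have hTt : T ≠ ⊤ := by
    rw [hT]
    exact ENNReal.mul_ne_top ENNReal.coe_ne_top (ENNReal.rpow_ne_top_of_nonneg (by norm_num) ENNReal.coe_ne_top)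
  have hK1 : (1 : ℝ) ≤ max 1 T.toReal := le_max_left _ _
  have hK0 : (0 : ℝ) ≤ max 1 T.toReal := le_trans zero_le_one hK1
  refine ⟨max 1 T.toReal * L, one_le_mul_of_one_le_of_one_le hK1 hL1, fun c r y hL S hS hSQ => ?_⟩
  have hc := hL.c0
  have hL0 : 0 < L := lt_of_lt_of_le one_pos hL1
  have hcont := HN4_Thc y hL.cont
  have hcpt : IsCompact (TN3 y '' S) := hS.image hcont
  have hlip := HN4_lip c L r y hL
  have h0Q : (0 : Fin 3 → ℝ) ∈ Icc (fun _ => -r) (fun _ : Fin 3 => r) := by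
    have hr := hL.r0
    exact ⟨fun _ => by show -r ≤ 0; linarith, fun _ => by show 0 ≤ r; linarith⟩
  have hTh0 : TN3 y 0 = 1 := by
    have e1 : kM 0 = 1 := by
      apply Subtype.ext
      show !![Real.cos 0, Real.sin 0; -Real.sin 0, Real.cos 0] = 1
      rw [Real.cos_zero, Real.sin_zero, neg_zero, Matrix.one_fin_two]
    show y 0 0 * kM 0 = 1
    rw [hL.zero, e1, mul_one]
  have hsub : TN3 y '' S ⊆ {g : SL(2, ℝ) | nm g ≤ 4} := by
    rintro _ ⟨z, hz, rfl⟩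
    refine DA4_nm_le _ _ fun i j => ?_
    rw [← hTh0]
    refine (hlip z 0 (hSQ hz) h0Q i j).trans ?_
    have hm : ∀ k, |z k| ≤ r := fun k => abs_le.2 ⟨(hSQ hz).1 k, (hSQ hz).2 k⟩
    have h1 : c * |z 0| ≤ c * r := mul_le_mul_of_nonneg_left (hm 0) hc.le
    have h2 : L * |z 1| ≤ L * r := mul_le_mul_of_nonneg_left (hm 1) hL0.le
    have h3 := hm 2
    have h4 := hL.Lr
    have h5 := hL.cr
    have h6 : r ≤ L * r := le_mul_of_one_le_left hL.r0.le hL1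
    show 12 * (c * |z 0 - 0| + L * |z 1 - 0| + |z 2 - 0|) ≤ 4
    rw [sub_zero, sub_zero, sub_zero]
    linarith
  have hA := hC (TN3 y '' S) hcpt.isClosed.measurableSet hsub
  -- the scaling
  obtain ⟨σ, hσ⟩ : ∃ σ : (Fin 3 → ℝ) →ₗ[ℝ] (Fin 3 → ℝ), σ = Matrix.toLin' (Matrix.diagonal ![c, L, 1]) := ⟨_, rfl⟩
  have hσ0 : ∀ z, σ z 0 = c * z 0 := by
    intro z
    rw [hσ, Matrix.toLin'_apply, Matrix.mulVec_diagonal]
    rfl
  have hσ1 : ∀ z, σ z 1 = L * z 1 := by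
    intro z
    rw [hσ, Matrix.toLin'_apply, Matrix.mulVec_diagonal]
    rfl
  have hσ2 : ∀ z, σ z 2 = z 2 := by
    intro z
    rw [hσ, Matrix.toLin'_apply, Matrix.mulVec_diagonal]
    exact one_mul _
  have hdet : LinearMap.det σ = c * L := by
    rw [hσ, LinearMap.det_toLin', Matrix.det_diagonal, Fin.prod_univ_three]
    show c * L * 1 = c * L
    ring
  have hvol : volume (σ '' S) = ENNReal.ofReal (c * L) * volume S := by
    rw [Measure.addHaar_image_linearMap, hdet, abs_of_pos (mul_pos hc hL0)]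
  obtain ⟨τ, hτ⟩ : ∃ τ : (Fin 3 → ℝ) → (Fin 3 → ℝ), ∀ z, τ (σ z) = z := by
    refine ⟨fun w => ![w 0 / c, w 1 / L, w 2], fun z => ?_⟩
    funext k
    fin_cases k
    · show σ z 0 / c = z 0
      rw [hσ0, mul_div_cancel_left₀ _ hc.ne']
    · show σ z 1 / L = z 1
      rw [hσ1, mul_div_cancel_left₀ _ hL0.ne']
    · exact hσ2 z
  have himg : mt '' (TN3 y '' S) = (fun w => mt (TN3 y (τ w))) '' (σ '' S) := by
    rw [← image_comp, ← image_comp]
    refine image_congr fun z _ => ?_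
    show mt (TN3 y z) = mt (TN3 y (τ (σ z)))
    rw [hτ]
  have hLW : LipschitzOnWith 36 (fun w => mt (TN3 y (τ w))) (σ '' S) := by
    refine LipschitzOnWith.of_dist_le_mul ?_
    rintro _ ⟨z, hz, rfl⟩ _ ⟨z', hz', rfl⟩
    show dist (mt (TN3 y (τ (σ z)))) (mt (TN3 y (τ (σ z')))) ≤ _
    rw [hτ, hτ]
    have hd : ∀ k, |σ z k - σ z' k| ≤ dist (σ z) (σ z') := fun k => dist_le_pi_dist (σ z) (σ z') k
    have d0 := hd 0
    have d1 := hd 1
    have d2 := hd 2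
    rw [hσ0, hσ0, ← mul_sub, abs_mul, abs_of_pos hc] at d0
    rw [hσ1, hσ1, ← mul_sub, abs_mul, abs_of_pos hL0] at d1
    rw [hσ2, hσ2] at d2
    have hpos : (0 : ℝ) ≤ ((36 : NNReal) : ℝ) * dist (σ z) (σ z') := by positivity
    rw [dist_pi_le_iff hpos]
    intro i
    rw [dist_pi_le_iff hpos]
    intro j
    have h1 := hlip z z' (hSQ hz) (hSQ hz') i j
    show |(TN3 y z).1 i j - (TN3 y z').1 i j| ≤ _
    refine h1.trans ?_
    have e36 : ((36 : NNReal) : ℝ) = 36 := by norm_num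
    rw [e36]
    linarith
  have hH := hLW.hausdorffMeasure_image_le (d := 3) (by norm_num)
  have hH3 : (Measure.hausdorffMeasure 3 : Measure (Fin 3 → ℝ)) (σ '' S) = ENNReal.ofReal (c * L) * volume S := by
    have h8 : (Measure.hausdorffMeasure ((Fintype.card (Fin 3) : ℕ) : ℝ) : Measure (Fin 3 → ℝ)) = volume :=
      hausdorffMeasure_pi_real
    have h9 : ((Fintype.card (Fin 3) : ℕ) : ℝ) = 3 := by simp
    rw [h9] at h8
    rw [h8, hvol]
  rw [hH3, ← himg] at hH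
  calc mG (TN3 y '' S) ≤ C * Measure.hausdorffMeasure 3 (mt '' (TN3 y '' S)) := hA
    _ ≤ C * (((36 : NNReal) : ℝ≥0∞) ^ (3 : ℝ) * (ENNReal.ofReal (c * L) * volume S)) := mul_le_mul_right hH _
    _ = T * (ENNReal.ofReal (c * L) * volume S) := by rw [hT, mul_assoc]
    _ ≤ ENNReal.ofReal (max 1 T.toReal) * (ENNReal.ofReal (c * L) * volume S) := by
        refine mul_le_mul_left ?_ _
        rw [← ENNReal.ofReal_toReal hTt]
        refine ENNReal.ofReal_le_ofReal ?_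
        rw [ENNReal.ofReal_toReal hTt]
        exact le_max_right _ _
    _ = ENNReal.ofReal (max 1 T.toReal * L * c) * volume S := by
        have e : max 1 T.toReal * L * c = max 1 T.toReal * (c * L) := by ring
        rw [e, ENNReal.ofReal_mul hK0, mul_assoc]

end Pool.Agent.VN
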