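import Pool.Agent.helper74.VN.SpecA
import Pool.Agent.helper36.VQ.VEL

/-!
# Row vn:NEL (MP_07c750_an): energy localisation of the packet coefficients
-/

set_option autoImplicit false

open scoped MatrixGroups ContDiff Topology UpperHalfPlane ComplexConjugate ENNReal
open UpperHalfPlane MeasureTheory Filter Set

namespace Pool.Agent.VN

open Pool.Agent.RS Pool.Agent.VQ

noncomputable section

theorem NEL_num {R ζ k n1 n2 A B C : ℝ} (hk0 : 0 < k) (hk : k ≤ 1 / 16) (hζ0 : 0 < ζ) (hζ : ζ ≤ 1 / 8) (hR : 8 ≤ R) (hX : 4 / k ≤ R ^ ζ) (h1 : 0 ≤ n1) (h2 : 0 ≤ n2)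
    (hA : A ≤ 4 * (R ^ (-(1 / 2) + ζ)) ^ 2 * n1) (hB : B ≤ 4 * (R ^ (-(1 / 2) + ζ)) ^ 2 * n2)
    (hC : C ≤ 4 * (R ^ (-(1 / 2) + ζ)) ^ 2 * (4 / k * R ^ 2 * n2 + (R ^ 2)⁻¹ * n1)) :
    R ^ (1 + ζ) * (R ^ (-4 : ℝ) * A + R ^ (-1 + 4 * ζ) * B + R ^ (-3 + 4 * ζ) * C) ≤
      2 * Real.pi * (R ^ (8 * ζ) * (R ^ (-4 : ℝ) * n1 + R ^ (-1 : ℝ) * n2)) := by
  have hR0 : 0 < R := by linarith
  set X := R ^ ζ with hXd
  have hk4 : 64 ≤ 4 / k := by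
    rw [le_div_iff₀ hk0]
    linarith
  have hX0 : 0 < X := by linarith
  have e1 : (R ^ (-(1 / 2) + ζ)) ^ 2 = R⁻¹ * X ^ 2 := by
    rw [← Real.rpow_natCast, ← Real.rpow_mul hR0.le, hXd, ← Real.rpow_natCast, ← Real.rpow_mul hR0.le, ← Real.rpow_neg_one, ← Real.rpow_add hR0]
    congr 1
    push_cast
    ring
  have e2 : R ^ (1 + ζ) = R * X := by rw [Real.rpow_add hR0, Real.rpow_one]
  have e3 : R ^ (4 * ζ) = X ^ 4 := by
    rw [hXd, ← Real.rpow_natCast, ← Real.rpow_mul hR0.le]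
    congr 1
    push_cast
    ring
  have e4 : R ^ (8 * ζ) = X ^ 8 := by
    rw [hXd, ← Real.rpow_natCast, ← Real.rpow_mul hR0.le]
    congr 1
    push_cast
    ring
  have e5 : R ^ (-1 + 4 * ζ) = R⁻¹ * X ^ 4 := by rw [Real.rpow_add hR0, Real.rpow_neg_one, e3]
  have e6 : R ^ (-3 + 4 * ζ) = (R ^ 3)⁻¹ * X ^ 4 := by
    rw [Real.rpow_add hR0, e3, Real.rpow_neg hR0.le]
    norm_num
  have e7 : R ^ (-4 : ℝ) = (R ^ 4)⁻¹ := by
    rw [Real.rpow_neg hR0.le]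
    norm_num
  have e8 : R ^ (-1 : ℝ) = R⁻¹ := Real.rpow_neg_one R
  have hX4 : X ^ 4 ≤ R := by
    rw [← e3]
    calc R ^ (4 * ζ) ≤ R ^ (1 : ℝ) := Real.rpow_le_rpow_of_exponent_le (by linarith) (by linarith)
      _ = R := Real.rpow_one R
  rw [e1] at hA hB hC
  rw [e2, e4, e5, e6, e7, e8]
  have hpi := Real.pi_gt_three
  have k1 : (R ^ 4)⁻¹ * A ≤ (R ^ 4)⁻¹ * (4 * (R⁻¹ * X ^ 2) * n1) := mul_le_mul_of_nonneg_left hA (by positivity)
  have k2 : R⁻¹ * X ^ 4 * B ≤ R⁻¹ * X ^ 4 * (4 * (R⁻¹ * X ^ 2) * n2) := mul_le_mul_of_nonneg_left hB (by positivity)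
  have k3 : (R ^ 3)⁻¹ * X ^ 4 * C ≤ (R ^ 3)⁻¹ * X ^ 4 * (4 * (R⁻¹ * X ^ 2) * (4 / k * R ^ 2 * n2 + (R ^ 2)⁻¹ * n1)) :=
    mul_le_mul_of_nonneg_left hC (by positivity)
  have k4 : R * X * ((R ^ 4)⁻¹ * A + R⁻¹ * X ^ 4 * B + (R ^ 3)⁻¹ * X ^ 4 * C) ≤
      R * X * ((R ^ 4)⁻¹ * (4 * (R⁻¹ * X ^ 2) * n1) + R⁻¹ * X ^ 4 * (4 * (R⁻¹ * X ^ 2) * n2) +
        (R ^ 3)⁻¹ * X ^ 4 * (4 * (R⁻¹ * X ^ 2) * (4 / k * R ^ 2 * n2 + (R ^ 2)⁻¹ * n1))) :=
    mul_le_mul_of_nonneg_left (by linarith) (by positivity)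
  refine k4.trans ?_
  have k5 : R * X * ((R ^ 4)⁻¹ * (4 * (R⁻¹ * X ^ 2) * n1) + R⁻¹ * X ^ 4 * (4 * (R⁻¹ * X ^ 2) * n2) +
        (R ^ 3)⁻¹ * X ^ 4 * (4 * (R⁻¹ * X ^ 2) * (4 / k * R ^ 2 * n2 + (R ^ 2)⁻¹ * n1))) =
      4 * X ^ 3 * (((R ^ 4)⁻¹ * n1) * (1 + R⁻¹ * X ^ 4) + (1 + 4 / k) * X ^ 4 * (R⁻¹ * n2)) := by
    field_simp
    ring
  rw [k5]
  have k6 : R⁻¹ * X ^ 4 ≤ 1 := by
    rw [inv_mul_le_iff₀ hR0, mul_one]
    exact hX4
  set a := (R ^ 4)⁻¹ * n1 with ha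
  set b := R⁻¹ * n2 with hb
  have ha0 : 0 ≤ a := by positivity
  have hb0 : 0 ≤ b := by positivity
  have hX4' : 1 ≤ X ^ 4 := one_le_pow₀ (by linarith)
  have hq : 1 + 4 / k ≤ 5 / 4 * (4 / k) := by linarith
  have k7 : a * (1 + R⁻¹ * X ^ 4) + (1 + 4 / k) * X ^ 4 * b ≤ 5 / 4 * (4 / k) * X ^ 4 * (a + b) := by
    have h8 : (80 : ℝ) * 1 ≤ 5 / 4 * (4 / k) * X ^ 4 := mul_le_mul (by linarith) hX4' (by norm_num) (by positivity)
    have h9 : a * (1 + R⁻¹ * X ^ 4) ≤ a * (5 / 4 * (4 / k) * X ^ 4) := mul_le_mul_of_nonneg_left (by linarith) ha0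
    have h10 : (1 + 4 / k) * X ^ 4 * b ≤ 5 / 4 * (4 / k) * X ^ 4 * b :=
      mul_le_mul_of_nonneg_right (mul_le_mul_of_nonneg_right hq (by positivity)) hb0
    have h11 : 5 / 4 * (4 / k) * X ^ 4 * (a + b) = a * (5 / 4 * (4 / k) * X ^ 4) + 5 / 4 * (4 / k) * X ^ 4 * b := by ring
    rw [h11]
    exact add_le_add h9 h10
  have k8 : 4 * X ^ 3 * (a * (1 + R⁻¹ * X ^ 4) + (1 + 4 / k) * X ^ 4 * b) ≤ 4 * X ^ 3 * (5 / 4 * (4 / k) * X ^ 4 * (a + b)) :=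
    mul_le_mul_of_nonneg_left k7 (by positivity)
  refine k8.trans ?_
  have k9 : 4 * X ^ 3 * (5 / 4 * (4 / k) * X ^ 4 * (a + b)) = (5 * (4 / k)) * (X ^ 7 * (a + b)) := by ring
  have k10 : 2 * Real.pi * (X ^ 8 * (a + b)) = (2 * Real.pi * X) * (X ^ 7 * (a + b)) := by ring
  rw [k9, k10]
  refine mul_le_mul_of_nonneg_right ?_ (by positivity)
  nlinarith

theorem NEL_proof (hNEG : NEG_stmt) (hNGD : NGD_stmt) (hNQS : NQS_stmt) (hVCD : VQ.VCD_stmt) (hVLP : VQ.VLP_stmt) : NEL_stmt := by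
  intro ch ζ k L hch hk0 hk hζ0 hζ
  obtain ⟨R1, hR1, h1⟩ := hNEG ch ζ k L hch hk0 hk hζ0 hζ
  obtain ⟨R2, hR2, h2⟩ := hNQS ch ζ k hch hk0 hζ0 hζ
  refine ⟨max (max R1 R2) (max 8 ((4 / k : ℝ) ^ (1 / ζ))), le_trans hR1 (le_trans (le_max_left _ _) (le_max_left _ _)), ?_⟩
  intro R Γ F U φ E0 hR hDm hPU hL hE0 hFH hφ
  have hRa : R1 ≤ R := le_trans (le_trans (le_max_left _ _) (le_max_left _ _)) hR
  have hRb : R2 ≤ R := le_trans (le_trans (le_max_right _ _) (le_max_left _ _)) hR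
  have hRc : 8 ≤ R := le_trans (le_trans (le_max_left _ _) (le_max_right _ _)) hR
  have hRd : (4 / k : ℝ) ^ (1 / ζ) ≤ R := le_trans (le_trans (le_max_right _ _) (le_max_right _ _)) hR
  have hR0 : 0 < R := by linarith
  have hX : 4 / k ≤ R ^ ζ := by
    calc (4 / k : ℝ) = ((4 / k : ℝ) ^ (1 / ζ)) ^ ζ := by
          rw [← Real.rpow_mul (by positivity), one_div_mul_cancel hζ0.ne', Real.rpow_one]
      _ ≤ R ^ ζ := Real.rpow_le_rpow (by positivity) hRd hζ0.le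
  have hs0 : 0 < R ^ (-(1 / 2) + ζ) := Real.rpow_pos_of_pos hR0 _
  have hs1 : R ^ (-(1 / 2) + ζ) ≤ 1 / 2 := by
    calc R ^ (-(1 / 2) + ζ) ≤ R ^ (-(3 / 8) : ℝ) := Real.rpow_le_rpow_of_exponent_le (by linarith) (by linarith)
      _ ≤ 8 ^ (-(3 / 8) : ℝ) := Real.rpow_le_rpow_of_nonpos (by norm_num) hRc (by norm_num)
      _ = 2 ^ (-(9 / 8) : ℝ) := by
          rw [show (8 : ℝ) = 2 ^ (3 : ℝ) by norm_num, ← Real.rpow_mul (by norm_num)]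
          norm_num
      _ ≤ 2 ^ (-1 : ℝ) := Real.rpow_le_rpow_of_exponent_le (by norm_num) (by norm_num)
      _ = 1 / 2 := by norm_num
  set s := R ^ (-(1 / 2) + ζ) with hs
  have hFm : MeasurableSet F := by
    rcases hDm with ⟨hS, hN⟩ | ⟨rfl, rfl⟩
    · exact hN.meas
    · exact MeasurableSet.univ
  have hGMG : GMG_stmt := GMG GLC
  have hdG : MeasurableSet (dG F) := (hGMG.1 F hFm).1
  have hkI : ∀ θ, kM θ • I = I := GLC.2.2.2.2.2.2.2.2.2.2.2.2.2.2.2.1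
  -- bounded support
  obtain ⟨b, hb⟩ : ∃ b : ℝ, ∀ z ∈ F, (∃ w, dist w z ≤ 2 ∧ φ w ≠ 0) → dist z I ≤ b := by
    obtain ⟨b, hb⟩ := hFH.supp
    rcases hDm with ⟨hS, hN⟩ | ⟨rfl, rfl⟩
    · obtain ⟨K, hK, hFK⟩ := hN.rel
      obtain ⟨r, hr⟩ := hK.isBounded.subset_closedBall I
      exact ⟨r, fun z hz _ => hr (hFK hz)⟩
    · refine ⟨2 + b, fun z _ hw => ?_⟩
      obtain ⟨w, hw1, hw2⟩ := hw
      have h3 := hb w (mem_univ _) hw2
      have h4 := dist_triangle z w I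
      rw [dist_comm z w] at h4
      linarith
  obtain ⟨hlc, hls⟩ := VEL_lapc hφ
  set f1 : ℍ → ℂ := fun z => QU.lap φ z - ((R ^ 2 * (U z + 2 * E0) : ℝ) : ℂ) * φ z with hf1
  have hf1c : Continuous f1 := by
    refine hlc.sub (Continuous.mul ?_ hFH.cont)
    exact Complex.continuous_ofReal.comp (continuous_const.mul (hPU.inv.1.add continuous_const))
  have hf1s : ∀ z, f1 z ≠ 0 → ∃ w, dist w z ≤ 1 ∧ φ w ≠ 0 := by
    intro z hz
    have hz' : z ∈ tsupport φ := by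
      by_contra hc
      apply hz
      have g1 : φ z = 0 := image_eq_zero_of_notMem_tsupport hc
      have g2 : QU.lap φ z = 0 := by
        by_contra h
        exact hc (hls z h)
      show QU.lap φ z - _ * φ z = 0
      rw [g1, g2, mul_zero, sub_zero]
    obtain ⟨w, hw1, hw2⟩ := Metric.mem_closure_iff.mp hz' 1 one_pos
    exact ⟨w, by rw [dist_comm]; exact hw2.le, hw1⟩
  have hf1F : FH Γ F f1 := by
    refine ⟨hf1c, fun γ z => ?_, ⟨b, fun z hz hne => ?_⟩⟩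
    · show QU.lap φ (γ • z) - ((R ^ 2 * (U (γ • z) + 2 * E0) : ℝ) : ℂ) * φ (γ • z) = _
      rw [hFH.inv, hPU.inv.2]
      have := VEL_lapi hVCD hVLP hφ (γ : SL(2, ℝ)) (fun z => hFH.inv γ z) z
      rw [show (γ • z : ℍ) = (γ : SL(2, ℝ)) • z from rfl, this]
    · obtain ⟨w, hw1, hw2⟩ := hf1s z hne
      exact hb z hz ⟨w, by linarith, hw2⟩
  -- the integrands
  have hcc := VEL_cc hVCD
  have hT1 : Continuous (fun x : SL(2, ℝ) × ℂ => ‖f1 (x.1 • cdi (VEL_r x.2))‖ ^ 2) := (hf1c.comp hcc).norm.pow 2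
  have hT2 : Continuous (fun x : SL(2, ℝ) × ℂ => ‖φ (x.1 • cdi (VEL_r x.2))‖ ^ 2) := (hFH.cont.comp hcc).norm.pow 2
  have hT3 : Continuous (fun x : SL(2, ℝ) × ℂ => ‖fderiv ℝ (fun w : ℂ => φ (x.1 • cdi w)) (VEL_r x.2) 1‖ ^ 2 +
      ‖fderiv ℝ (fun w : ℂ => φ (x.1 • cdi w)) (VEL_r x.2) Complex.I‖ ^ 2) :=
    (((VEL_dc hVCD hφ).clm_apply continuous_const).norm.pow 2).add (((VEL_dc hVCD hφ).clm_apply continuous_const).norm.pow 2)
  set T1 : SL(2, ℝ) × ℂ → ℝ := fun x => ‖f1 (x.1 • cdi (VEL_r x.2))‖ ^ 2 with hT1d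
  set T2 : SL(2, ℝ) × ℂ → ℝ := fun x => ‖φ (x.1 • cdi (VEL_r x.2))‖ ^ 2 with hT2d
  set T3 : SL(2, ℝ) × ℂ → ℝ := fun x => ‖fderiv ℝ (fun w : ℂ => φ (x.1 • cdi w)) (VEL_r x.2) 1‖ ^ 2 +
      ‖fderiv ℝ (fun w : ℂ => φ (x.1 • cdi w)) (VEL_r x.2) Complex.I‖ ^ 2 with hT3d
  have hre : ∀ v ∈ Metric.closedBall (0 : ℂ) s, VEL_r v = v := by
    intro v hv
    rw [mem_closedBall_zero_iff] at hv
    exact VEL_r_eq (by linarith)
  have hsm : MeasurableSet (Metric.closedBall (0 : ℂ) s) := Metric.isClosed_closedBall.measurableSet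
  have hJ1 : IntegrableOn (fun g => ∫ v in Metric.closedBall (0 : ℂ) s, T1 (g, v)) (dG F) mG := by
    refine VEL_int hdG (VEL_J hT1 s) (b := b) fun g hg hne => ?_
    obtain ⟨v, hv, hv'⟩ := VEL_ne hne
    have hv1 : VEL_r v = v := VEL_r_eq (by linarith)
    have hv2 : f1 (g • cdi v) ≠ 0 := by
      intro h0
      apply hv'
      show ‖f1 (g • cdi (VEL_r v))‖ ^ 2 = 0
      rw [hv1, h0]
      simp
    obtain ⟨w, hw1, hw2⟩ := hf1s _ hv2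
    refine hb _ hg ⟨w, ?_, hw2⟩
    have h3 := dist_triangle w (g • cdi v : ℍ) (g • I)
    have h4 := VEL_dist hVCD g (v := v) (by linarith)
    linarith
  have hJ2 : IntegrableOn (fun g => ∫ v in Metric.closedBall (0 : ℂ) s, T2 (g, v)) (dG F) mG := by
    refine VEL_int hdG (VEL_J hT2 s) (b := b) fun g hg hne => ?_
    obtain ⟨v, hv, hv'⟩ := VEL_ne hne
    have hv1 : VEL_r v = v := VEL_r_eq (by linarith)
    have hv2 : φ (g • cdi v) ≠ 0 := by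
      intro h0
      apply hv'
      show ‖φ (g • cdi (VEL_r v))‖ ^ 2 = 0
      rw [hv1, h0]
      simp
    refine hb _ hg ⟨g • cdi v, ?_, hv2⟩
    have h4 := VEL_dist hVCD g (v := v) (by linarith)
    linarith
  have hJ3 : IntegrableOn (fun g => ∫ v in Metric.closedBall (0 : ℂ) s, T3 (g, v)) (dG F) mG := by
    refine VEL_int hdG (VEL_J hT3 s) (b := b) fun g hg hne => ?_
    obtain ⟨v, hv, hv'⟩ := VEL_ne hne
    have hv1 : VEL_r v = v := VEL_r_eq (by linarith)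
    have hv2 : ∃ w : ℂ, ‖w‖ ≤ 1 ∧ φ (g • cdi w) ≠ 0 := by
      by_contra hcon
      apply hv'
      have h5 : fderiv ℝ (fun w : ℂ => φ (g • cdi w)) v = 0 := by
        have h6 : (fun w : ℂ => φ (g • cdi w)) =ᶠ[𝓝 v] fun _ => (0 : ℂ) := by
          have h7 : Metric.ball (0 : ℂ) 1 ∈ 𝓝 v := Metric.isOpen_ball.mem_nhds (by rw [mem_ball_zero_iff]; linarith)
          filter_upwards [h7] with w hw
          by_contra h8
          rw [mem_ball_zero_iff] at hw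
          exact hcon ⟨w, hw.le, h8⟩
        rw [h6.fderiv_eq]
        simp
      show ‖fderiv ℝ (fun w : ℂ => φ (g • cdi w)) (VEL_r v) 1‖ ^ 2 + ‖fderiv ℝ (fun w : ℂ => φ (g • cdi w)) (VEL_r v) Complex.I‖ ^ 2 = 0
      rw [hv1, h5]
      simp
    obtain ⟨w, hw1, hw2⟩ := hv2
    refine hb _ hg ⟨g • cdi w, ?_, hw2⟩
    have h4 := VEL_dist hVCD g hw1
    linarith
  -- the function `K`
  have hQc : Continuous (QF U ch ζ R φ) := ((h2 R Γ F U hRb hDm hPU).2.2.2.1 φ hFH).1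
  have hK : Measurable (fun g : SL(2, ℝ) => ∫⁻ E in {E : ℝ | -(U (g • I) / 2) < E}, ENNReal.ofReal ((E - E0) ^ 2) * ‖QF U ch ζ R φ (g, E)‖ₑ ^ 2) := by
    have hUc : Continuous (fun g : SL(2, ℝ) => -(U (g • I) / 2)) :=
      ((hPU.inv.1.comp (continuous_id.smul continuous_const)).div_const 2).neg
    have hS : MeasurableSet {p : SL(2, ℝ) × ℝ | -(U (p.1 • I) / 2) < p.2} :=
      measurableSet_lt (hUc.comp continuous_fst).measurable measurable_snd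
    have hm : Measurable ({p : SL(2, ℝ) × ℝ | -(U (p.1 • I) / 2) < p.2}.indicator fun p => ENNReal.ofReal ((p.2 - E0) ^ 2) * ‖QF U ch ζ R φ p‖ₑ ^ 2) := by
      have m1 : Measurable fun p : SL(2, ℝ) × ℝ => ENNReal.ofReal ((p.2 - E0) ^ 2) :=
        ((measurable_snd.sub_const E0).pow_const 2).ennreal_ofReal
      have m2 : Measurable fun p : SL(2, ℝ) × ℝ => ‖QF U ch ζ R φ p‖ₑ ^ 2 := (hQc.measurable.enorm).pow_const 2
      have m3 : Measurable fun p : SL(2, ℝ) × ℝ => ENNReal.ofReal ((p.2 - E0) ^ 2) * ‖QF U ch ζ R φ p‖ₑ ^ 2 := m1.mul m2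
      exact m3.indicator hS
    have h3 := hm.lintegral_prod_right' (ν := (volume : Measure ℝ))
    have e : (fun g : SL(2, ℝ) => ∫⁻ E in {E : ℝ | -(U (g • I) / 2) < E}, ENNReal.ofReal ((E - E0) ^ 2) * ‖QF U ch ζ R φ (g, E)‖ₑ ^ 2) =
        fun g => ∫⁻ E, ({p : SL(2, ℝ) × ℝ | -(U (p.1 • I) / 2) < p.2}.indicator fun p => ENNReal.ofReal ((p.2 - E0) ^ 2) * ‖QF U ch ζ R φ p‖ₑ ^ 2) (g, E) := by
      funext g
      have m4 : MeasurableSet {E : ℝ | -(U (g • I) / 2) < E} := measurableSet_lt measurable_const measurable_id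
      rw [← lintegral_indicator m4]
      rfl
    rw [e]
    exact h3
  set K : SL(2, ℝ) → ENNReal := fun g => ∫⁻ E in {E : ℝ | -(U (g • I) / 2) < E}, ENNReal.ofReal ((E - E0) ^ 2) * ‖QF U ch ζ R φ (g, E)‖ₑ ^ 2 with hKd
  have hle : ∀ g : SL(2, ℝ), ∫⁻ θ in Ioc 0 (2 * Real.pi), K (g * kM θ) ≤ ENNReal.ofReal (R ^ (1 + ζ) *
      (R ^ (-4 : ℝ) * (∫ v in Metric.closedBall (0 : ℂ) s, T1 (g, v)) + R ^ (-1 + 4 * ζ) * (∫ v in Metric.closedBall (0 : ℂ) s, T2 (g, v)) +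
        R ^ (-3 + 4 * ζ) * (∫ v in Metric.closedBall (0 : ℂ) s, T3 (g, v)))) := by
    intro g
    have h3 := h1 R U φ g E0 hRa hφ hPU.inv.1 hPU.bd (hL g) hE0
    have e : ∀ θ : ℝ, K (g * kM θ) = ∫⁻ E in {E : ℝ | -(U (g • I) / 2) < E}, ENNReal.ofReal ((E - E0) ^ 2) * ‖QF U ch ζ R φ (g * kM θ, E)‖ₑ ^ 2 := by
      intro θ
      show (∫⁻ E in {E : ℝ | -(U ((g * kM θ) • I) / 2) < E}, _) = _
      rw [mul_smul, hkI]
    simp_rw [e]
    refine h3.trans (le_of_eq ?_)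
    congr 2
    have hi1 : IntegrableOn (fun v => T1 (g, v)) (Metric.closedBall (0 : ℂ) s) :=
      (hT1.comp (Continuous.prodMk_right g)).continuousOn.integrableOn_compact (isCompact_closedBall 0 s)
    have hi2 : IntegrableOn (fun v => T2 (g, v)) (Metric.closedBall (0 : ℂ) s) :=
      (hT2.comp (Continuous.prodMk_right g)).continuousOn.integrableOn_compact (isCompact_closedBall 0 s)
    have hi3 : IntegrableOn (fun v => T3 (g, v)) (Metric.closedBall (0 : ℂ) s) :=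
      (hT3.comp (Continuous.prodMk_right g)).continuousOn.integrableOn_compact (isCompact_closedBall 0 s)
    have hi12 : IntegrableOn (fun v => R ^ (-4 : ℝ) * T1 (g, v) + R ^ (-1 + 4 * ζ) * T2 (g, v)) (Metric.closedBall (0 : ℂ) s) :=
      (hi1.const_mul _).add (hi2.const_mul _)
    rw [← integral_const_mul, ← integral_const_mul, ← integral_const_mul,
      ← integral_add (hi1.const_mul _) (hi2.const_mul _), ← integral_add hi12 (hi3.const_mul _)]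
    refine setIntegral_congr_fun hsm fun v hv => ?_
    show _ = R ^ (-4 : ℝ) * ‖f1 (g • cdi (VEL_r v))‖ ^ 2 + R ^ (-1 + 4 * ζ) * ‖φ (g • cdi (VEL_r v))‖ ^ 2 +
      R ^ (-3 + 4 * ζ) * (‖fderiv ℝ (fun w : ℂ => φ (g • cdi w)) (VEL_r v) 1‖ ^ 2 + ‖fderiv ℝ (fun w : ℂ => φ (g • cdi w)) (VEL_r v) Complex.I‖ ^ 2)
    rw [hre v hv]
  have havg := VEL_avg hdG hK hle
  have hA : ∫ g in dG F, (∫ v in Metric.closedBall (0 : ℂ) s, T1 (g, v)) ∂mG ≤ 4 * s ^ 2 * nn F f1 := by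
    have h3 := (hNGD k hk0 hk Γ F hDm).1 f1 s hf1F hs0 hs1
    refine le_trans (le_of_eq ?_) h3
    congr 1
    funext g
    exact setIntegral_congr_fun hsm fun v hv => by
      show ‖f1 (g • cdi (VEL_r v))‖ ^ 2 = _
      rw [hre v hv]
  have hB : ∫ g in dG F, (∫ v in Metric.closedBall (0 : ℂ) s, T2 (g, v)) ∂mG ≤ 4 * s ^ 2 * nn F φ := by
    have h3 := (hNGD k hk0 hk Γ F hDm).1 φ s hFH hs0 hs1
    refine le_trans (le_of_eq ?_) h3
    congr 1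
    funext g
    exact setIntegral_congr_fun hsm fun v hv => by
      show ‖φ (g • cdi (VEL_r v))‖ ^ 2 = _
      rw [hre v hv]
  have hC : ∫ g in dG F, (∫ v in Metric.closedBall (0 : ℂ) s, T3 (g, v)) ∂mG ≤ 4 * s ^ 2 * (4 / k * R ^ 2 * nn F φ + (R ^ 2)⁻¹ * nn F f1) := by
    have h3 := (hNGD k hk0 hk Γ F hDm).2 φ U s R E0 hFH hφ hPU hs0 hs1 (by linarith) hE0
    refine le_trans (le_of_eq ?_) h3
    congr 1
    funext g
    exact setIntegral_congr_fun hsm fun v hv => by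
      show ‖fderiv ℝ (fun w : ℂ => φ (g • cdi w)) (VEL_r v) 1‖ ^ 2 + ‖fderiv ℝ (fun w : ℂ => φ (g • cdi w)) (VEL_r v) Complex.I‖ ^ 2 = _
      rw [hre v hv]
  have hn1 : 0 ≤ nn F f1 := integral_nonneg fun z => by positivity
  have hn2 : 0 ≤ nn F φ := integral_nonneg fun z => by positivity
  have hnum := NEL_num hk0 hk hζ0 hζ hRc hX hn1 hn2 hA hB hC
  have hint : Integrable (fun g => R ^ (1 + ζ) *
      (R ^ (-4 : ℝ) * (∫ v in Metric.closedBall (0 : ℂ) s, T1 (g, v)) + R ^ (-1 + 4 * ζ) * (∫ v in Metric.closedBall (0 : ℂ) s, T2 (g, v)) +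
        R ^ (-3 + 4 * ζ) * (∫ v in Metric.closedBall (0 : ℂ) s, T3 (g, v)))) (mG.restrict (dG F)) :=
    (((hJ1.const_mul _).add (hJ2.const_mul _)).add (hJ3.const_mul _)).const_mul _
  have hint2 : ∫ g in dG F, R ^ (1 + ζ) *
      (R ^ (-4 : ℝ) * (∫ v in Metric.closedBall (0 : ℂ) s, T1 (g, v)) + R ^ (-1 + 4 * ζ) * (∫ v in Metric.closedBall (0 : ℂ) s, T2 (g, v)) +
        R ^ (-3 + 4 * ζ) * (∫ v in Metric.closedBall (0 : ℂ) s, T3 (g, v))) ∂mG = R ^ (1 + ζ) *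
      (R ^ (-4 : ℝ) * (∫ g in dG F, (∫ v in Metric.closedBall (0 : ℂ) s, T1 (g, v)) ∂mG) + R ^ (-1 + 4 * ζ) * (∫ g in dG F, (∫ v in Metric.closedBall (0 : ℂ) s, T2 (g, v)) ∂mG) +
        R ^ (-3 + 4 * ζ) * (∫ g in dG F, (∫ v in Metric.closedBall (0 : ℂ) s, T3 (g, v)) ∂mG)) := by
    have hJ12 : IntegrableOn (fun g => R ^ (-4 : ℝ) * (∫ v in Metric.closedBall (0 : ℂ) s, T1 (g, v)) + R ^ (-1 + 4 * ζ) * (∫ v in Metric.closedBall (0 : ℂ) s, T2 (g, v)))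
      (dG F) mG := (hJ1.const_mul _).add (hJ2.const_mul _)
    rw [integral_const_mul, integral_add hJ12 (hJ3.const_mul _), integral_add (hJ1.const_mul _) (hJ2.const_mul _),
      integral_const_mul, integral_const_mul, integral_const_mul]
  rw [← ofReal_integral_eq_lintegral_ofReal hint ?_, hint2] at havg
  swap
  · refine Filter.Eventually.of_forall fun g => ?_
    have p1 : 0 ≤ ∫ v in Metric.closedBall (0 : ℂ) s, T1 (g, v) := integral_nonneg fun v => by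
      show 0 ≤ ‖f1 (g • cdi (VEL_r v))‖ ^ 2
      positivity
    have p2 : 0 ≤ ∫ v in Metric.closedBall (0 : ℂ) s, T2 (g, v) := integral_nonneg fun v => by
      show 0 ≤ ‖φ (g • cdi (VEL_r v))‖ ^ 2
      positivity
    have p3 : 0 ≤ ∫ v in Metric.closedBall (0 : ℂ) s, T3 (g, v) := integral_nonneg fun v => by
      show 0 ≤ ‖fderiv ℝ (fun w : ℂ => φ (g • cdi w)) (VEL_r v) 1‖ ^ 2 + ‖fderiv ℝ (fun w : ℂ => φ (g • cdi w)) (VEL_r v) Complex.I‖ ^ 2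
      positivity
    positivity
  have hfin : ENNReal.ofReal (2 * Real.pi) * ∫⁻ g in dG F, K g ∂mG ≤ ENNReal.ofReal (2 * Real.pi) *
      ENNReal.ofReal (R ^ (8 * ζ) * (R ^ (-4 : ℝ) * nn F f1 + R ^ (-1 : ℝ) * nn F φ)) := by
    rw [← ENNReal.ofReal_mul (by positivity)]
    exact havg.trans (ENNReal.ofReal_le_ofReal hnum)
  have hpi0 : ENNReal.ofReal (2 * Real.pi) ≠ 0 := by
    rw [Ne, ENNReal.ofReal_eq_zero, not_le]
    positivity
  exact (ENNReal.mul_le_mul_iff_right hpi0 ENNReal.ofReal_ne_top).mp hfin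

end

end Pool.Agent.VN
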