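import Pool.Agent.helper74.VN.SpecC
import Pool.Agent.helper62.QU.All

/-!
# Row vn:NFS (MP_07c750_an): Schur bound for the Gram kernel
-/

set_option autoImplicit false

open scoped MatrixGroups ContDiff Topology UpperHalfPlane ComplexConjugate ENNReal
open UpperHalfPlane MeasureTheory Filter Set

namespace Pool.Agent.VN

open Pool.Agent.RS Pool.Agent.VQ

noncomputable section

theorem NFS_GW (R : ℝ) : MeasurableSet (GW 2 R) := MeasurableSet.univ.prod measurableSet_Icc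

/-- the measure theoretic part -/
theorem NFS_meas {X : Type} [MeasurableSpace X] (μ : Measure X) (G N D : Set X) (hG : MeasurableSet G) (F : X → ℝ≥0∞) (a b : ℝ≥0∞)
    (h1 : ∀ q ∈ G, F q ≤ a) (h2 : ∀ q ∈ G, F q ≠ 0 → q ∈ D) (h3 : ∀ q ∈ G, q ∉ N → F q ≤ b) :
    ∫⁻ q in G, F q ∂μ ≤ a * μ N + b * μ D := by
  have hle : ∀ q ∈ G, F q ≤ (toMeasurable μ N).indicator (fun _ => a) q + (toMeasurable μ D).indicator (fun _ => b) q := by
    intro q hq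
    by_cases hN : q ∈ N
    · rw [indicator_of_mem (subset_toMeasurable μ N hN)]
      exact (h1 q hq).trans le_self_add
    · by_cases h0 : F q = 0
      · rw [h0]
        exact bot_le
      · rw [indicator_of_mem (subset_toMeasurable μ D (h2 q hq h0))]
        exact (h3 q hq hN).trans le_add_self
  calc ∫⁻ q in G, F q ∂μ ≤ ∫⁻ q in G, ((toMeasurable μ N).indicator (fun _ => a) q + (toMeasurable μ D).indicator (fun _ => b) q) ∂μ :=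
        setLIntegral_mono' hG hle
    _ ≤ ∫⁻ q, ((toMeasurable μ N).indicator (fun _ => a) q + (toMeasurable μ D).indicator (fun _ => b) q) ∂μ :=
        setLIntegral_le_lintegral _ _
    _ = a * μ N + b * μ D := by
        rw [lintegral_add_left (measurable_const.indicator (measurableSet_toMeasurable μ N)),
          lintegral_indicator_const (measurableSet_toMeasurable μ N), lintegral_indicator_const (measurableSet_toMeasurable μ D),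
          measure_toMeasurable, measure_toMeasurable]

theorem NFS_det (h : SL(2, ℝ)) : h.1 0 0 * h.1 1 1 - h.1 0 1 * h.1 1 0 = 1 := by
  have h1 := h.2
  rwa [Matrix.det_fin_two] at h1

theorem NFS_tt (h : SL(2, ℝ)) : QU.tt (h • I : ℍ) I = ((h.1 0 0 - h.1 1 1) ^ 2 + (h.1 0 1 + h.1 1 0) ^ 2) / 2 := by
  have hdet := NFS_det h
  have hz : ((h • I : ℍ) : ℂ) = (((h.1 0 0 : ℝ) : ℂ) * Complex.I + ((h.1 0 1 : ℝ) : ℂ)) / (((h.1 1 0 : ℝ) : ℂ) * Complex.I + ((h.1 1 1 : ℝ) : ℂ)) := by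
    rw [UpperHalfPlane.coe_specialLinearGroup_apply]
    rfl
  have hq : 0 < h.1 1 0 ^ 2 + h.1 1 1 ^ 2 := by
    by_contra hc
    have h2 : h.1 1 0 = 0 := by nlinarith [sq_nonneg (h.1 1 0), sq_nonneg (h.1 1 1)]
    have h3 : h.1 1 1 = 0 := by nlinarith [sq_nonneg (h.1 1 0), sq_nonneg (h.1 1 1)]
    rw [h2, h3] at hdet
    norm_num at hdet
  have hn : Complex.normSq (((h.1 1 0 : ℝ) : ℂ) * Complex.I + ((h.1 1 1 : ℝ) : ℂ)) = h.1 1 0 ^ 2 + h.1 1 1 ^ 2 := by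
    rw [Complex.normSq_apply]
    simp
    ring
  have him : (h • I : ℍ).im = (h.1 1 0 ^ 2 + h.1 1 1 ^ 2)⁻¹ := by
    have h2 : (h • I : ℍ).im = ((h • I : ℍ) : ℂ).im := rfl
    rw [h2, hz, Complex.div_im, hn]
    simp
    field_simp
    linarith
  have hre : ((h • I : ℍ) : ℂ).re = (h.1 0 1 * h.1 1 1 + h.1 0 0 * h.1 1 0) * (h.1 1 0 ^ 2 + h.1 1 1 ^ 2)⁻¹ := by
    rw [hz, Complex.div_re, hn]
    simp
    field_simp
  have h3 : ‖((h • I : ℍ) : ℂ) - ((I : ℍ) : ℂ)‖ ^ 2 = ((h • I : ℍ) : ℂ).re ^ 2 + ((h • I : ℍ).im - 1) ^ 2 := by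
    rw [← Complex.normSq_eq_norm_sq, Complex.normSq_apply]
    simp only [Complex.sub_re, Complex.sub_im, UpperHalfPlane.coe_I, Complex.I_re, Complex.I_im, sub_zero]
    have h2 : ((h • I : ℍ) : ℂ).im = (h • I : ℍ).im := rfl
    rw [h2]
    ring
  have h4 : QU.tt (h • I : ℍ) I = ‖((h • I : ℍ) : ℂ) - ((I : ℍ) : ℂ)‖ ^ 2 / (2 * (h • I : ℍ).im * (I : ℍ).im) := rfl
  have h5 : (I : ℍ).im = 1 := UpperHalfPlane.I_im
  rw [h4, h3, h5, hre, him]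
  set a := h.1 0 0
  set b := h.1 0 1
  set c := h.1 1 0
  set d := h.1 1 1
  have e1 : (b * d + a * c) ^ 2 + 1 = (a ^ 2 + b ^ 2) * (c ^ 2 + d ^ 2) := by
    have : (1 : ℝ) = (a * d - b * c) ^ 2 := by rw [hdet]; norm_num
    rw [this]
    ring
  field_simp
  linear_combination e1 + 2 * (c ^ 2 + d ^ 2) * hdet

theorem NFS_cd (hVCD : VQ.VCD_stmt) {m : SL(2, ℝ)} {s : ℝ} (hs : 0 < s) (hm : m ∈ Bo s) : ‖cd (m • I : ℍ)‖ ≤ 3 * s := by
  obtain ⟨-, -, -, -, h5, -⟩ := hVCD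
  have h1 := h5 (m • I : ℍ)
  have h2 : (m.1 0 0 - m.1 1 1) ^ 2 ≤ 4 * s ^ 2 ∧ (m.1 0 1 + m.1 1 0) ^ 2 ≤ 4 * s ^ 2 := by
    rcases hm with hm | hm
    · have a1 := abs_lt.mp (hm 0 0)
      have a2 := abs_lt.mp (hm 1 1)
      have a3 := abs_lt.mp (hm 0 1)
      have a4 := abs_lt.mp (hm 1 0)
      simp only [Matrix.one_apply_eq, ne_eq, zero_ne_one, not_false_eq_true, Matrix.one_apply_ne, one_ne_zero, sub_zero] at a1 a2 a3 a4
      constructor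
      · have : |m.1 0 0 - m.1 1 1| ≤ 2 * s := abs_le.mpr ⟨by linarith [a1.1, a2.2], by linarith [a1.2, a2.1]⟩
        calc (m.1 0 0 - m.1 1 1) ^ 2 = |m.1 0 0 - m.1 1 1| ^ 2 := (sq_abs _).symm
          _ ≤ (2 * s) ^ 2 := pow_le_pow_left₀ (abs_nonneg _) this 2
          _ = 4 * s ^ 2 := by ring
      · have : |m.1 0 1 + m.1 1 0| ≤ 2 * s := abs_le.mpr ⟨by linarith [a3.1, a4.1], by linarith [a3.2, a4.2]⟩
        calc (m.1 0 1 + m.1 1 0) ^ 2 = |m.1 0 1 + m.1 1 0| ^ 2 := (sq_abs _).symm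
          _ ≤ (2 * s) ^ 2 := pow_le_pow_left₀ (abs_nonneg _) this 2
          _ = 4 * s ^ 2 := by ring
    · have a1 := abs_lt.mp (hm 0 0)
      have a2 := abs_lt.mp (hm 1 1)
      have a3 := abs_lt.mp (hm 0 1)
      have a4 := abs_lt.mp (hm 1 0)
      simp only [Matrix.one_apply_eq, ne_eq, zero_ne_one, not_false_eq_true, Matrix.one_apply_ne, one_ne_zero, add_zero] at a1 a2 a3 a4
      constructor
      · have : |m.1 0 0 - m.1 1 1| ≤ 2 * s := abs_le.mpr ⟨by linarith [a1.1, a2.2], by linarith [a1.2, a2.1]⟩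
        calc (m.1 0 0 - m.1 1 1) ^ 2 = |m.1 0 0 - m.1 1 1| ^ 2 := (sq_abs _).symm
          _ ≤ (2 * s) ^ 2 := pow_le_pow_left₀ (abs_nonneg _) this 2
          _ = 4 * s ^ 2 := by ring
      · have : |m.1 0 1 + m.1 1 0| ≤ 2 * s := abs_le.mpr ⟨by linarith [a3.1, a4.1], by linarith [a3.2, a4.2]⟩
        calc (m.1 0 1 + m.1 1 0) ^ 2 = |m.1 0 1 + m.1 1 0| ^ 2 := (sq_abs _).symm
          _ ≤ (2 * s) ^ 2 := pow_le_pow_left₀ (abs_nonneg _) this 2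
          _ = 4 * s ^ 2 := by ring
  have h3 : QU.tt (m • I : ℍ) I ≤ 4 * s ^ 2 := by
    rw [NFS_tt]
    linarith [h2.1, h2.2]
  have h4 : 0 ≤ QU.tt (m • I : ℍ) I := QU.A_TTT.2.1 _ _
  have h6 : ‖cd (m • I : ℍ)‖ ^ 2 ≤ (3 * s) ^ 2 := by
    have h7 : 0 ≤ ‖cd (m • I : ℍ)‖ ^ 2 * QU.tt (m • I : ℍ) I := by positivity
    nlinarith
  exact (sq_le_sq₀ (norm_nonneg _) (by positivity)).mp h6

/-- close momenta and close frames: close energies -/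
theorem NFS_en (hVCD : VQ.VCD_stmt) {k C s : ℝ} {U : ℍ → ℝ} (hC : 1 ≤ C)
    (hrho : ∀ (E : ℝ) (g : SL(2, ℝ)), |E| ≤ k → rho U E g ≤ C ∧ 0 ≤ rho U E g ∧ rho U E g ^ 2 = U (g • I) + 2 * E)
    (hlip : ∀ (g : SL(2, ℝ)) (v : ℂ), ‖v‖ ≤ 1 → |Ug U g v - Ug U g 0| ≤ C * ‖v‖)
    (hs : 0 < s) (hs1 : s ≤ 1 / 4) {E E' : ℝ} (hE : |E| ≤ k) (hE' : |E'| ≤ k) {h h' : SL(2, ℝ)} (hB : h⁻¹ * h' ∈ Bo s)
    (hr : |rho U E h - rho U E' h'| < s) : |E - E'| < 4 * C * s := by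
  obtain ⟨r1, r2, r3⟩ := hrho E h hE
  obtain ⟨q1, q2, q3⟩ := hrho E' h' hE'
  have h1 := NFS_cd hVCD hs hB
  have h2 := hlip h (cd ((h⁻¹ * h') • I : ℍ)) (by linarith)
  have h3 : cdi (cd ((h⁻¹ * h') • I : ℍ)) = (h⁻¹ * h') • I := (hVCD.1 _).2
  have h4 : cdi (0 : ℂ) = I := by
    have h5 := (hVCD.1 I).2
    rwa [hVCD.2.2.1] at h5
  have h5 : Ug U h (cd ((h⁻¹ * h') • I : ℍ)) = U (h' • I) := by
    show U (h • cdi (cd ((h⁻¹ * h') • I : ℍ))) = _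
    rw [h3, ← mul_smul, mul_inv_cancel_left]
  have h6 : Ug U h 0 = U (h • I) := by
    show U (h • cdi 0) = _
    rw [h4]
  rw [h5, h6] at h2
  have h7 : |U (h' • I) - U (h • I)| ≤ 3 * C * s := by
    refine h2.trans ?_
    nlinarith
  have h8 : |rho U E h ^ 2 - rho U E' h' ^ 2| ≤ 2 * C * s := by
    have e1 : rho U E h ^ 2 - rho U E' h' ^ 2 = (rho U E h - rho U E' h') * (rho U E h + rho U E' h') := by ring
    rw [e1, abs_mul, abs_of_nonneg (show (0 : ℝ) ≤ rho U E h + rho U E' h' by linarith)]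
    calc |rho U E h - rho U E' h'| * (rho U E h + rho U E' h') ≤ s * (2 * C) :=
          mul_le_mul hr.le (by linarith) (by linarith) hs.le
      _ = 2 * C * s := by ring
  have a1 := abs_le.mp h7
  have a2 := abs_le.mp h8
  have hCs : 0 < C * s := by positivity
  rw [abs_lt]
  constructor <;> nlinarith [a1.1, a1.2, a2.1, a2.2]

theorem NFS_half (hNOV : NOV_stmt) (hNNV : NNV_stmt) (hNUB : NUB_stmt) (hVCD : VQ.VCD_stmt) :
    ∀ k : ℝ, 0 < k → ∃ C : ℝ, 1 ≤ C ∧ ∀ η : ℝ, 0 < η → C * η ≤ 1 → ∃ (K : ℕ) (R0 : ℝ), 1 ≤ R0 ∧ ∀ (R m m' t t' : ℝ) (Γ : Subgroup SL(2, ℝ)) (B : ℕ → ℝ) (D : Dyn) (f f' : SL(2, ℝ) × ℝ → ℂ → ℂ), R0 ≤ R → OKN Γ k B D → 0 ≤ m → 0 ≤ m' → FaN Γ k D K η m R t f → FaN Γ k D K η m' R t' f' →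
    (∀ p ∈ GW 2 R, ∫⁻ q in GW 2 R, ‖∫ z : ℍ, pF D t f p z * conj (pF D t' f' q z)‖ₑ ∂mP ≤ ENNReal.ofReal (m * m' * R ^ (-3 + C * η))) := by
  intro k hk
  obtain ⟨CV, hCV, hV⟩ := hNOV
  obtain ⟨CN, hCN, hN⟩ := hNNV k hk
  obtain ⟨CU, hCU, hU⟩ := hNUB k hk
  refine ⟨4 + 4 * CV, by linarith, fun η hη hCη => ?_⟩
  have hCη1 : CV * η ≤ 1 / 4 := by nlinarith
  obtain ⟨K, R1, hR1, hK⟩ := hV 4 η CU hCU hη (by linarith)
  set CM : ℝ := CN * (4 * CU) ^ 4 with hCM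
  have hCU4 : 1 ≤ (4 * CU) ^ 4 := one_le_pow₀ (by linarith)
  have hCNM : CN ≤ CM := by
    rw [hCM]
    nlinarith
  have hCM1 : 1 ≤ CM := hCN.trans hCNM
  refine ⟨K, max R1 (max ((16 * CU + 2 / k) ^ 4) ((2 * CM) ^ (1 / η))), le_trans hR1 (le_max_left _ _), ?_⟩
  intro R m m' t t' Γ B D f f' hR hD hm hm' hf hf' p hp
  have hRR1 : R1 ≤ R := (le_max_left _ _).trans hR
  have hR65 : (16 * CU + 2 / k) ^ 4 ≤ R := (le_max_left _ _).trans ((le_max_right _ _).trans hR)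
  have hRN : (2 * CM) ^ (1 / η) ≤ R := (le_max_right _ _).trans ((le_max_right _ _).trans hR)
  have hR1' : 1 ≤ R := hR1.trans hRR1
  have hR0 : 0 < R := by linarith
  have h2CN : 2 * CM ≤ R ^ η := by
    have h1 := Real.rpow_le_rpow (by positivity) hRN hη.le
    rwa [← Real.rpow_mul (by positivity), one_div, inv_mul_cancel₀ hη.ne', Real.rpow_one] at h1
  have hkk : 0 < 2 / k := by positivity
  have hA : 0 < 16 * CU + 2 / k := by linarith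
  have hq : R ^ (-(1 / 4) : ℝ) ≤ (16 * CU + 2 / k)⁻¹ := by
    have h2 : 16 * CU + 2 / k ≤ R ^ (1 / 4 : ℝ) := by
      have h1 := Real.rpow_le_rpow (by positivity) hR65 (show (0 : ℝ) ≤ 1 / 4 by norm_num)
      rwa [← Real.rpow_natCast, ← Real.rpow_mul hA.le, show ((4 : ℕ) : ℝ) * (1 / 4) = 1 by norm_num, Real.rpow_one] at h1
    rw [Real.rpow_neg hR0.le]
    exact inv_anti₀ hA h2
  have hq1 : R ^ (-(1 / 4) : ℝ) ≤ (16 * CU)⁻¹ := hq.trans (inv_anti₀ (by linarith) (by linarith))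
  have hq2 : R ^ (-(1 / 4) : ℝ) ≤ (2 / k)⁻¹ := hq.trans (inv_anti₀ hkk (by linarith))
  have hwin : 2 * R ^ (-(1 / 4) : ℝ) ≤ k := by
    rw [inv_div] at hq2
    linarith
  have hE : ∀ q ∈ GW 2 R, |q.2| ≤ k := by
    intro q hq'
    have h1 : q.2 ∈ Wi 2 R := hq'.2
    unfold Wi at h1
    rw [abs_le]
    constructor <;> linarith [h1.1, h1.2]
  obtain ⟨-, -, hUr, -, -, hUl, -⟩ := hU Γ B D.U hD.pot
  have hrho : ∀ (q : SL(2, ℝ) × ℝ) (g : SL(2, ℝ)), q ∈ GW 2 R → 1 / CU ≤ rho D.U q.2 g ∧ rho D.U q.2 g ≤ CU := by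
    intro q g hq'
    obtain ⟨h4, h5, -⟩ := hUr q.2 g (hE q hq')
    exact ⟨h4, h5⟩
  set s : ℝ := R ^ (-(1 / 2) + CV * η) with hs
  have hs0 : 0 < s := Real.rpow_pos_of_pos hR0 _
  have hsq : s ≤ R ^ (-(1 / 4) : ℝ) := by
    rw [hs]
    exact Real.rpow_le_rpow_of_exponent_le hR1' (by linarith)
  have hs1 : 4 * CU * s ≤ 1 / 4 := by
    have h1 : s ≤ (16 * CU)⁻¹ := hsq.trans hq1
    calc 4 * CU * s ≤ 4 * CU * (16 * CU)⁻¹ := mul_le_mul_of_nonneg_left h1 (by positivity)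
      _ = 1 / 4 := by
        field_simp
        norm_num
  have hs2 : s ≤ 1 / 4 := by nlinarith
  set h : SL(2, ℝ) := D.fl p.2 t p.1 with hh
  set ρ1 : ℝ := rho D.U p.2 h with hρ1
  obtain ⟨r1, r2⟩ := hrho p h hp
  have hs3 : s ≤ 4 * CU * s := by nlinarith
  obtain ⟨-, n2, n3⟩ := hN Γ B D hD R hwin hR1' h 0 t' (4 * CU * s) (by positivity) hs1 le_rfl (by linarith)
  have n1 : mP {q | q ∈ GW 2 R ∧ h⁻¹ * D.fl q.2 t' q.1 ∈ Bo s ∧ |ρ1 - rho D.U q.2 (D.fl q.2 t' q.1)| < s} ≤ ENNReal.ofReal (CM * s ^ 4) := by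
    have e1 : CM * s ^ 4 = CN * (4 * CU * s) ^ 4 := by
      rw [hCM]
      ring
    rw [e1]
    refine (measure_mono ?_).trans (n2 p.2)
    rintro q ⟨a1, a2, a3⟩
    refine ⟨a1, ?_, ?_⟩
    · rcases a2 with a2 | a2
      · exact Or.inl fun i j => (a2 i j).trans_le hs3
      · exact Or.inr fun i j => (a2 i j).trans_le hs3
    · refine NFS_en hVCD (k := k) (U := D.U) hCU (fun E g hE' => ?_) (fun g v hv => (hUl g v hv).2) hs0 hs2 (hE p hp) (hE q a1) a2 a3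
      obtain ⟨b1, b2, b3, -⟩ := hUr E g hE'
      exact ⟨b2, le_trans (by positivity) b1, b3⟩
  have hmm : 0 ≤ m * m' := mul_nonneg hm hm'
  have hov : ∀ q ∈ GW 2 R,
      ‖∫ z : ℍ, pF D t f p z * conj (pF D t' f' q z)‖ ≤ m * m' * R ^ (-1 + 3 * η) ∧
      ((∫ z : ℍ, pF D t f p z * conj (pF D t' f' q z)) ≠ 0 → dist (h • I : ℍ) (D.fl q.2 t' q.1 • I) ≤ 1) ∧
      (¬(h⁻¹ * D.fl q.2 t' q.1 ∈ Bo s ∧ |ρ1 - rho D.U q.2 (D.fl q.2 t' q.1)| < s) →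
        ‖∫ z : ℍ, pF D t f p z * conj (pF D t' f' q z)‖ ≤ m * m' * R ^ (-4 : ℝ)) := by
    intro q hq'
    obtain ⟨q1, q2⟩ := hrho q (D.fl q.2 t' q.1) hq'
    exact hK R ρ1 (rho D.U q.2 (D.fl q.2 t' q.1)) m m' (f p) (f' q) h (D.fl q.2 t' q.1) hRR1
      ⟨by linarith, by linarith⟩ ⟨by linarith, by linarith⟩ hm hm' (hf.pk p hp) (hf'.pk q hq')
  have hmain := NFS_meas mP (GW 2 R)
    {q | q ∈ GW 2 R ∧ h⁻¹ * D.fl q.2 t' q.1 ∈ Bo s ∧ |ρ1 - rho D.U q.2 (D.fl q.2 t' q.1)| < s}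
    {q | q ∈ GW 2 R ∧ dist (h • I : ℍ) (D.fl q.2 t' q.1 • I) ≤ 2} (NFS_GW R)
    (fun q => ‖∫ z : ℍ, pF D t f p z * conj (pF D t' f' q z)‖ₑ)
    (ENNReal.ofReal (m * m' * R ^ (-1 + 3 * η))) (ENNReal.ofReal (m * m' * R ^ (-4 : ℝ)))
    (fun q hq' => by
      rw [← ofReal_norm]
      exact ENNReal.ofReal_le_ofReal (hov q hq').1)
    (fun q hq' h0 => by
      refine ⟨hq', ?_⟩
      have h1 := (hov q hq').2.1 fun h2 => h0 (by simp only [h2, enorm_zero])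
      linarith)
    (fun q hq' hn => by
      rw [← ofReal_norm]
      refine ENNReal.ofReal_le_ofReal ((hov q hq').2.2 fun h2 => hn ⟨hq', h2⟩))
  refine hmain.trans ?_
  have e1 : ENNReal.ofReal (m * m' * R ^ (-1 + 3 * η)) * mP {q | q ∈ GW 2 R ∧ h⁻¹ * D.fl q.2 t' q.1 ∈ Bo s ∧ |ρ1 - rho D.U q.2 (D.fl q.2 t' q.1)| < s} ≤
      ENNReal.ofReal (m * m' * R ^ (-1 + 3 * η) * (CM * s ^ 4)) := by
    rw [ENNReal.ofReal_mul (p := m * m' * R ^ (-1 + 3 * η)) (q := CM * s ^ 4) (by positivity)]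
    exact mul_le_mul le_rfl n1 bot_le bot_le
  have e2 : ENNReal.ofReal (m * m' * R ^ (-4 : ℝ)) * mP {q | q ∈ GW 2 R ∧ dist (h • I : ℍ) (D.fl q.2 t' q.1 • I) ≤ 2} ≤
      ENNReal.ofReal (m * m' * R ^ (-4 : ℝ) * CN) := by
    rw [ENNReal.ofReal_mul (p := m * m' * R ^ (-4 : ℝ)) (q := CN) (by positivity)]
    exact mul_le_mul le_rfl n3 bot_le bot_le
  refine (add_le_add e1 e2).trans ?_
  rw [← ENNReal.ofReal_add (by positivity) (by positivity)]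
  apply ENNReal.ofReal_le_ofReal
  have k1 : R ^ (-1 + 3 * η) * s ^ 4 = R ^ (-3 + (3 + 4 * CV) * η) := by
    rw [hs, ← Real.rpow_natCast, ← Real.rpow_mul hR0.le, ← Real.rpow_add hR0]
    congr 1
    push_cast
    ring
  have k2 : R ^ (-4 : ℝ) ≤ R ^ (-3 + (3 + 4 * CV) * η) := by
    refine Real.rpow_le_rpow_of_exponent_le hR1' ?_
    have : 0 ≤ (3 + 4 * CV) * η := by positivity
    linarith
  have k3 : R ^ (-3 + (4 + 4 * CV) * η) = R ^ (-3 + (3 + 4 * CV) * η) * R ^ η := by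
    rw [← Real.rpow_add hR0]
    congr 1
    ring
  have k4 : 0 ≤ R ^ (-3 + (3 + 4 * CV) * η) := (Real.rpow_pos_of_pos hR0 _).le
  have k5 : R ^ (-1 + 3 * η) * (CM * s ^ 4) + R ^ (-4 : ℝ) * CN ≤ R ^ (-3 + (4 + 4 * CV) * η) := by
    rw [k3]
    have e3 : R ^ (-1 + 3 * η) * (CM * s ^ 4) = R ^ (-3 + (3 + 4 * CV) * η) * CM := by
      rw [← k1]
      ring
    rw [e3]
    have e4 : R ^ (-4 : ℝ) * CN ≤ R ^ (-3 + (3 + 4 * CV) * η) * CM := mul_le_mul k2 hCNM (by linarith) k4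
    have e5 : R ^ (-3 + (3 + 4 * CV) * η) * (2 * CM) ≤ R ^ (-3 + (3 + 4 * CV) * η) * R ^ η := mul_le_mul_of_nonneg_left h2CN k4
    linarith
  calc m * m' * R ^ (-1 + 3 * η) * (CM * s ^ 4) + m * m' * R ^ (-4 : ℝ) * CN
      = m * m' * (R ^ (-1 + 3 * η) * (CM * s ^ 4) + R ^ (-4 : ℝ) * CN) := by ring
    _ ≤ m * m' * R ^ (-3 + (4 + 4 * CV) * η) := mul_le_mul_of_nonneg_left k5 hmm

theorem NFS_proof (hNOV : NOV_stmt) (hNNV : NNV_stmt) (hNUB : NUB_stmt) (hVCD : VQ.VCD_stmt) : NFS_stmt := by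
  intro k hk
  obtain ⟨C, hC, h⟩ := NFS_half hNOV hNNV hNUB hVCD k hk
  refine ⟨C, hC, fun η hη hCη => ?_⟩
  obtain ⟨K, R0, hR0, hK⟩ := h η hη hCη
  refine ⟨K, R0, hR0, ?_⟩
  intro R m m' t t' Γ B D f f' hR hD hm hm' hf hf'
  refine ⟨hK R m m' t t' Γ B D f f' hR hD hm hm' hf hf', fun q hq => ?_⟩
  have h1 := hK R m' m t' t Γ B D f' f hR hD hm' hm hf' hf q hq
  have h2 : ∀ p : SL(2, ℝ) × ℝ, ‖∫ z : ℍ, pF D t f p z * conj (pF D t' f' q z)‖ₑ =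
      ‖∫ z : ℍ, pF D t' f' q z * conj (pF D t f p z)‖ₑ := by
    intro p
    have h3 : (∫ z : ℍ, pF D t f p z * conj (pF D t' f' q z)) = conj (∫ z : ℍ, pF D t' f' q z * conj (pF D t f p z)) := by
      rw [← integral_conj]
      refine integral_congr_ae (Filter.Eventually.of_forall fun z => ?_)
      simp only [map_mul, Complex.conj_conj]
      ring
    rw [h3, ← ofReal_norm, ← ofReal_norm, RCLike.norm_conj]
  simp only [h2]
  rw [mul_comm m m']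
  exact h1

end

end Pool.Agent.VN
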