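import Pool.Agent.helper74.VN.SpecA

/-!
# Row vn:NJW (MP_07c750_an): the Jacobi equation
-/

set_option autoImplicit false

open scoped MatrixGroups ContDiff Topology UpperHalfPlane ComplexConjugate ENNReal
open UpperHalfPlane MeasureTheory Filter Set

namespace Pool.Agent.VN

open Pool.Agent.RS Pool.Agent.VQ

theorem NJW_XX (U : ℍ → ℝ) (E : ℝ) (g : SL(2, ℝ)) : XX U E g = !![rho U E g / 2, kap U E g / 2; -(kap U E g / 2), -(rho U E g / 2)] := by
  unfold XX A0 K0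
  ext i j
  fin_cases i <;> fin_cases j <;> simp <;> ring

/-- the algebra of the second equation -/
theorem NJW_alg (ρ κ n1 n2 h00 h10 h11 x b c dr dk : ℝ) (hρ : ρ ≠ 0) (hκ : κ = n2 / (2 * ρ))
    (hdr : dr = (n1 * x - n2 * (b + c)) / (2 * ρ)) (hdk : dk = (h10 * x - h11 * (b + c) - (b - c) * n1) / (2 * ρ) - κ * dr / ρ) :
    ((-(ρ * b) + κ * x / 2 + dk / 2) - (ρ * c + κ * x / 2 - dk / 2)) -
      (((h00 * ρ + κ * n2) * (2 * ρ ^ 2) - n1 * (2 * (2 * ρ * (n1 / 2)))) / (2 * ρ ^ 2) ^ 2 * (b + c) +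
        n1 / (2 * ρ ^ 2) * ((-(ρ * b) + κ * x / 2 + dk / 2) + (ρ * c + κ * x / 2 - dk / 2))) -
      ((((h10 * ρ - κ * n1) / (2 * ρ) - κ * ((n1 * ρ) / (2 * ρ)) / ρ) * x + κ * (-(κ * (b + c)) + dr)) * ρ - κ * x * (n1 / 2)) / ρ ^ 2 =
    -(ρ ^ 2 * (-(1 + (h00 + h11) / (2 * ρ ^ 2) - (n1 ^ 2 + n2 ^ 2) / (2 * ρ ^ 4)) / ρ ^ 2) * (-(ρ * (b + c)))) := by
  subst hdk
  subst hdr
  subst hκ
  field_simp
  ring

theorem NJW_proof (hNDN : NDN_stmt) : NJW_stmt := by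
  intro Γ k B D hD E g x b c hE hV t
  have hpos : 0 < rho D.U E (D.fl E t g) := by
    refine Real.sqrt_pos.mpr ?_
    have h1 := hD.pot.lo (D.fl E t g • I)
    have h2 := hD.pot.kpos.1
    have h3 := (abs_le.mp hE).1
    linarith
  have hfl : ∀ i j, HasDerivAt (fun s => (D.fl E s g).1 i j) (((D.fl E t g).1 * !![rho D.U E (D.fl E t g) / 2, kap D.U E (D.fl E t g) / 2;
      -(kap D.U E (D.fl E t g) / 2), -(rho D.U E (D.fl E t g) / 2)]) i j) t := by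
    intro i j
    have h1 := hD.dfl E t g hE i j
    rwa [NJW_XX] at h1
  obtain ⟨-, d1, d2, d3, d4⟩ := hNDN Γ k B D.U hD.pot (fun s => D.fl E s g) t (rho D.U E (D.fl E t g)) (kap D.U E (D.fl E t g) / 2)
    (-(kap D.U E (D.fl E t g) / 2)) E hE hfl
  obtain ⟨v1, v2, v3⟩ := hV t _ _ _ _ rfl rfl rfl rfl
  have hkap : kap D.U E (D.fl E t g) = n2 D.U (D.fl E t g) / (2 * rho D.U E (D.fl E t g)) := rfl
  have hKg : Kg D.U E (D.fl E t g) = -(1 + (hess D.U (D.fl E t g) 0 0 + hess D.U (D.fl E t g) 1 1) / (2 * rho D.U E (D.fl E t g) ^ 2) -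
      (n1 D.U (D.fl E t g) ^ 2 + n2 D.U (D.fl E t g) ^ 2) / (2 * rho D.U E (D.fl E t g) ^ 4)) / rho D.U E (D.fl E t g) ^ 2 := rfl
  have e1 : kap D.U E (D.fl E t g) / 2 + -(kap D.U E (D.fl E t g) / 2) = 0 := by ring
  have e2 : kap D.U E (D.fl E t g) / 2 - -(kap D.U E (D.fl E t g) / 2) = kap D.U E (D.fl E t g) := by ring
  rw [e1, e2] at d1 d2 d4
  rw [e1] at d3
  simp only [mul_zero, sub_zero] at d1 d2 d3 d4
  have d3' : HasDerivAt (fun s => rho D.U E (D.fl E s g)) (n1 D.U (D.fl E t g) / 2) t := by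
    refine d3.congr_deriv ?_
    field_simp
  constructor
  · have h1 := (d3'.mul (v2.add v3)).neg
    refine h1.congr_deriv ?_
    unfold Wc
    simp only [Pi.add_apply]
    field_simp
    ring
  · have h1 : HasDerivAt (fun s => n1 D.U (D.fl E s g) / (2 * rho D.U E (D.fl E s g) ^ 2)) _ t :=
      d1.div ((d3'.pow 2).const_mul 2) (by positivity)
    have h2 : HasDerivAt (fun s => kap D.U E (D.fl E s g) * x s / rho D.U E (D.fl E s g)) _ t := (d4.mul v1).div d3' hpos.ne'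
    have h3 : HasDerivAt (fun s => (b s - c s) - n1 D.U (D.fl E s g) / (2 * rho D.U E (D.fl E s g) ^ 2) * (b s + c s) -
      kap D.U E (D.fl E s g) * x s / rho D.U E (D.fl E s g)) _ t := ((v2.sub v3).sub (h1.mul (v2.add v3))).sub h2
    refine h3.congr_deriv ?_
    have h4 := NJW_alg (rho D.U E (D.fl E t g)) (kap D.U E (D.fl E t g)) (n1 D.U (D.fl E t g)) (n2 D.U (D.fl E t g)) (hess D.U (D.fl E t g) 0 0)
      (hess D.U (D.fl E t g) 1 0) (hess D.U (D.fl E t g) 1 1) (x t) (b t) (c t) _ _ hpos.ne' hkap rfl rfl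
    unfold Jc
    rw [hKg, ← h4]
    simp only [Pi.add_apply, Pi.mul_apply, Nat.cast_ofNat, Nat.add_one_sub_one, pow_one]

end Pool.Agent.VN
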