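import Pool.Agent.helper21.VQ.VPR
import Pool.Agent.helper74.VN.SpecC

set_option autoImplicit false

open scoped MatrixGroups ContDiff Topology UpperHalfPlane ComplexConjugate ENNReal
open UpperHalfPlane MeasureTheory Filter Set

namespace Pool.Agent.VN

open Pool.Agent.RS Pool.Agent.VQ

noncomputable section

theorem NPR_vL {C κ : ℝ} {K : Matrix (Fin 2) (Fin 2) ℂ} (hC : 0 ≤ C) (hκ : |κ| ≤ C) (hK : ∀ i j, ‖K i j‖ ≤ C) : LipschitzWith (Real.toNNReal (1 + 3 * C)) (VPR_v κ K) := by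
  refine LipschitzWith.of_dist_le_mul fun x y => ?_
  have hc : ‖((κ : ℝ) : ℂ)‖ ≤ C := by
    rw [Complex.norm_real, Real.norm_eq_abs]
    exact hκ
  have hd : ∀ i, ‖x i - y i‖ ≤ dist x y := fun i => by
    rw [← dist_eq_norm]
    exact dist_le_pi_dist x y i
  have hd0 : 0 ≤ dist x y := dist_nonneg
  have hcd : 0 ≤ C * dist x y := mul_nonneg hC hd0
  have hk : ∀ i, ‖(κ : ℂ) * (x i - y i)‖ ≤ C * dist x y := fun i => by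
    rw [norm_mul]
    exact mul_le_mul hc (hd i) (norm_nonneg _) hC
  have hKi : ∀ a b i, ‖K a b * (x i - y i)‖ ≤ C * dist x y := fun a b i => by
    rw [norm_mul]
    exact mul_le_mul (hK a b) (hd i) (norm_nonneg _) hC
  rw [Real.coe_toNNReal _ (by linarith)]
  have he : (1 + 3 * C) * dist x y = dist x y + 3 * (C * dist x y) := by ring
  rw [he, dist_pi_le_iff (by linarith)]
  intro i
  rw [dist_eq_norm]
  have e0 : VPR_v κ K x 0 - VPR_v κ K y 0 = (x 2 - y 2) + (κ : ℂ) * (x 1 - y 1) := by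
    show (x 2 + (κ : ℂ) * x 1) - (y 2 + (κ : ℂ) * y 1) = _
    ring
  have e1 : VPR_v κ K x 1 - VPR_v κ K y 1 = (x 3 - y 3) - (κ : ℂ) * (x 0 - y 0) := by
    show (x 3 - (κ : ℂ) * x 0) - (y 3 - (κ : ℂ) * y 0) = _
    ring
  have e2 : VPR_v κ K x 2 - VPR_v κ K y 2 = K 0 0 * (x 0 - y 0) + K 0 1 * (x 1 - y 1) + (κ : ℂ) * (x 3 - y 3) := by
    show (K 0 0 * x 0 + K 0 1 * x 1 + (κ : ℂ) * x 3) - (K 0 0 * y 0 + K 0 1 * y 1 + (κ : ℂ) * y 3) = _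
    ring
  have e3 : VPR_v κ K x 3 - VPR_v κ K y 3 = K 1 0 * (x 0 - y 0) + K 1 1 * (x 1 - y 1) - (κ : ℂ) * (x 2 - y 2) := by
    show (K 1 0 * x 0 + K 1 1 * x 1 - (κ : ℂ) * x 2) - (K 1 0 * y 0 + K 1 1 * y 1 - (κ : ℂ) * y 2) = _
    ring
  fin_cases i
  · show ‖VPR_v κ K x 0 - VPR_v κ K y 0‖ ≤ _
    rw [e0]
    have h1 := norm_add_le (x 2 - y 2) ((κ : ℂ) * (x 1 - y 1))
    have h2 := hd 2
    have h3 := hk 1
    linarith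
  · show ‖VPR_v κ K x 1 - VPR_v κ K y 1‖ ≤ _
    rw [e1]
    have h1 := norm_sub_le (x 3 - y 3) ((κ : ℂ) * (x 0 - y 0))
    have h2 := hd 3
    have h3 := hk 0
    linarith
  · show ‖VPR_v κ K x 2 - VPR_v κ K y 2‖ ≤ _
    rw [e2]
    have h1 := norm_add_le (K 0 0 * (x 0 - y 0) + K 0 1 * (x 1 - y 1)) ((κ : ℂ) * (x 3 - y 3))
    have h1' := norm_add_le (K 0 0 * (x 0 - y 0)) (K 0 1 * (x 1 - y 1))
    have h2 := hKi 0 0 0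
    have h2' := hKi 0 1 1
    have h3 := hk 3
    linarith
  · show ‖VPR_v κ K x 3 - VPR_v κ K y 3‖ ≤ _
    rw [e3]
    have h1 := norm_sub_le (K 1 0 * (x 0 - y 0) + K 1 1 * (x 1 - y 1)) ((κ : ℂ) * (x 2 - y 2))
    have h1' := norm_add_le (K 1 0 * (x 0 - y 0)) (K 1 1 * (x 1 - y 1))
    have h2 := hKi 1 0 0
    have h2' := hKi 1 1 1
    have h3 := hk 2
    linarith

theorem NPR_uniq {C : ℝ} {κ : ℝ → ℝ} {K : ℝ → Matrix (Fin 2) (Fin 2) ℂ} {Y P Y' P' : ℝ → Matrix (Fin 2) (Fin 2) ℂ} (hκ : ∀ t, |κ t| ≤ C) (hK : ∀ t i j, ‖K t i j‖ ≤ C)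
    (h : VPR_sol κ K Y P) (h' : VPR_sol κ K Y' P') (hY : Y 0 = Y' 0) (hP : P 0 = P' 0) (t : ℝ) : Y t = Y' t ∧ P t = P' t := by
  have hC : 0 ≤ C := (abs_nonneg _).trans (hκ 0)
  have h1 : ∀ j, (fun s => VPR_col (Y s) (P s) j) = fun s => VPR_col (Y' s) (P' s) j := by
    intro j
    refine ODE_solution_unique_univ (v := fun t => VPR_v (κ t) (K t)) (s := fun _ => univ) (K := Real.toNNReal (1 + 3 * C)) (t₀ := 0) (fun t => (NPR_vL hC (hκ t) (hK t)).lipschitzOnWith)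
      (fun t => ⟨VPR_cold h j t, mem_univ _⟩) (fun t => ⟨VPR_cold h' j t, mem_univ _⟩) ?_
    show VPR_col (Y 0) (P 0) j = VPR_col (Y' 0) (P' 0) j
    rw [hY, hP]
  have h2 : ∀ j k, VPR_col (Y t) (P t) j k = VPR_col (Y' t) (P' t) j k := fun j k => congrFun (congrFun (h1 j) t) k
  constructor
  · ext i j
    fin_cases i
    · exact h2 j 0
    · exact h2 j 1
  · ext i j
    fin_cases i
    · exact h2 j 2
    · exact h2 j 3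

theorem NPR_fl {Γ : Subgroup SL(2, ℝ)} {k : ℝ} {B : ℕ → ℝ} {D : Dyn} (h : OKN Γ k B D) :
    ContinuousOn (fun y : (SL(2, ℝ) × ℝ) × ℝ => D.fl y.1.2 y.2 y.1.1) {y | |y.1.2| ≤ k} := by
  have h1 : Continuous fun y : (SL(2, ℝ) × ℝ) × ℝ => ((y.1.2, y.2, y.1.1) : ℝ × ℝ × SL(2, ℝ)) := by fun_prop
  exact h.cfl.comp h1.continuousOn (fun y hy => hy)

theorem NPR_Y {Γ : Subgroup SL(2, ℝ)} {k : ℝ} {B : ℕ → ℝ} {D : Dyn} (h : OKN Γ k B D) (i j : Fin 2) :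
    ContinuousOn (fun y : (SL(2, ℝ) × ℝ) × ℝ => D.Y y.1.2 y.2 y.1.1 i j) {y | |y.1.2| ≤ k} := by
  have h1 : Continuous fun y : (SL(2, ℝ) × ℝ) × ℝ => ((y.1.2, y.2, y.1.1) : ℝ × ℝ × SL(2, ℝ)) := by fun_prop
  exact (h.cY i j).comp h1.continuousOn (fun y hy => hy)

theorem NPR_P {Γ : Subgroup SL(2, ℝ)} {k : ℝ} {B : ℕ → ℝ} {D : Dyn} (h : OKN Γ k B D) (i j : Fin 2) :
    ContinuousOn (fun y : (SL(2, ℝ) × ℝ) × ℝ => D.P y.1.2 y.2 y.1.1 i j) {y | |y.1.2| ≤ k} := by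
  have h1 : Continuous fun y : (SL(2, ℝ) × ℝ) × ℝ => ((y.1.2, y.2, y.1.1) : ℝ × ℝ × SL(2, ℝ)) := by fun_prop
  exact (h.cP i j).comp h1.continuousOn (fun y hy => hy)

theorem NPR_S {Γ : Subgroup SL(2, ℝ)} {k : ℝ} {B : ℕ → ℝ} {D : Dyn} (h : OKN Γ k B D) :
    ContinuousOn (fun y : (SL(2, ℝ) × ℝ) × ℝ => D.S y.1.2 y.2 y.1.1) {y | |y.1.2| ≤ k} := by
  have h1 : Continuous fun y : (SL(2, ℝ) × ℝ) × ℝ => ((y.1.2, y.2, y.1.1) : ℝ × ℝ × SL(2, ℝ)) := by fun_prop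
  exact h.cS.comp h1.continuousOn (fun y hy => hy)

theorem NPR_a {Γ : Subgroup SL(2, ℝ)} {k : ℝ} {B : ℕ → ℝ} {D : Dyn} (h : OKN Γ k B D) :
    ContinuousOn (fun y : (SL(2, ℝ) × ℝ) × ℝ => D.a y.1.2 y.2 y.1.1) {y | |y.1.2| ≤ k} := by
  have h1 : Continuous fun y : (SL(2, ℝ) × ℝ) × ℝ => ((y.1.2, y.2, y.1.1) : ℝ × ℝ × SL(2, ℝ)) := by fun_prop
  exact h.ca.comp h1.continuousOn (fun y hy => hy)

theorem NPR_M {Γ : Subgroup SL(2, ℝ)} {k : ℝ} {B : ℕ → ℝ} {D : Dyn} (hNYA : NYA_stmt) (h : OKN Γ k B D) (i j : Fin 2) :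
    ContinuousOn (fun y : (SL(2, ℝ) × ℝ) × ℝ => D.M y.1.2 y.2 y.1.1 i j) {y | |y.1.2| ≤ k} := by
  unfold Dyn.M
  exact VPR_mul (NPR_P h) (VPR_inv (NPR_Y h) (fun y hy => (hNYA Γ k B D h y.1.2 y.2 y.1.1 hy).1)) i j

theorem NPR_rho {Γ : Subgroup SL(2, ℝ)} {k : ℝ} {B : ℕ → ℝ} {D : Dyn} (hNUB : NUB_stmt) (h : OKN Γ k B D) :
    ContinuousOn (fun y : (SL(2, ℝ) × ℝ) × ℝ => rho D.U y.1.2 (D.fl y.1.2 y.2 y.1.1)) {y | |y.1.2| ≤ k} := by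
  obtain ⟨C, -, hU⟩ := hNUB k h.pot.kpos.1
  have h1 := (hU Γ B D.U h.pot).2.2.2.1.2.2.2.1
  have h2 : Continuous fun y : (SL(2, ℝ) × ℝ) × ℝ => y.1.2 := by fun_prop
  exact VPR_cpc (fun p : ℝ × SL(2, ℝ) => rho D.U p.1 p.2) (fun y : (SL(2, ℝ) × ℝ) × ℝ => (y.1.2, D.fl y.1.2 y.2 y.1.1)) _ h1 (h2.continuousOn.prodMk (NPR_fl h))

theorem NPR_kap {Γ : Subgroup SL(2, ℝ)} {k : ℝ} {B : ℕ → ℝ} {D : Dyn} (hNUB : NUB_stmt) (h : OKN Γ k B D) :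
    ContinuousOn (fun y : (SL(2, ℝ) × ℝ) × ℝ => kap D.U y.1.2 (D.fl y.1.2 y.2 y.1.1)) {y | |y.1.2| ≤ k} := by
  obtain ⟨C, -, hU⟩ := hNUB k h.pot.kpos.1
  have h1 := (hU Γ B D.U h.pot).2.2.2.1.2.2.2.2
  have h2 : Continuous fun y : (SL(2, ℝ) × ℝ) × ℝ => y.1.2 := by fun_prop
  exact VPR_cpo (fun p : ℝ × SL(2, ℝ) => kap D.U p.1 p.2) (fun y : (SL(2, ℝ) × ℝ) × ℝ => (y.1.2, D.fl y.1.2 y.2 y.1.1)) _ {p | |p.1| ≤ k} h1
    (h2.continuousOn.prodMk (NPR_fl h)) (fun y hy => hy)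

theorem NPR_ec {Γ : Subgroup SL(2, ℝ)} {k : ℝ} {B : ℕ → ℝ} {D : Dyn} (hNUB : NUB_stmt) (hNYA : NYA_stmt) (h : OKN Γ k B D) :
    ContinuousOn (VPR_e D) {y | |y.1.2| ≤ k} := by
  have hof : ∀ (f : (SL(2, ℝ) × ℝ) × ℝ → ℝ), ContinuousOn f {y | |y.1.2| ≤ k} → ContinuousOn (fun x => ((f x : ℝ) : ℂ)) {y | |y.1.2| ≤ k} :=
    fun f hf => Complex.continuous_ofReal.comp_continuousOn hf
  have hi : ∀ i j, ContinuousOn (fun y : (SL(2, ℝ) × ℝ) × ℝ => ((((D.fl y.1.2 y.2 y.1.1)⁻¹).1 i j : ℝ) : ℂ)) {y | |y.1.2| ≤ k} :=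
    fun i j => hof _ (VPR_cpc (fun g : SL(2, ℝ) => (g⁻¹).1 i j) (fun y : (SL(2, ℝ) × ℝ) × ℝ => D.fl y.1.2 y.2 y.1.1) _ (VPR_enti i j) (NPR_fl h))
  have hM := NPR_M hNYA h
  have hS := hof _ (NPR_S h)
  have hr := hof _ (NPR_rho hNUB h)
  have ha := NPR_a h
  refine continuousOn_pi.2 fun i => ?_
  fin_cases i
  · exact ha
  · exact hS
  · exact hr
  · exact hM 0 0
  · exact (hM 0 1).add (hM 1 0)
  · exact hM 1 1
  · exact hi 0 0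
  · exact hi 0 1
  · exact hi 1 0
  · exact hi 1 1

theorem NPR_comp {E : Type} [TopologicalSpace E] {k : ℝ} {D : Dyn} (he : ContinuousOn (VPR_e D) {y | |y.1.2| ≤ k}) {G : (Fin 10 → ℂ) × ℂ → E}
    (hG : ∀ x ∈ VPR_O, ContinuousAt G x) :
    ContinuousOn (fun x : ((SL(2, ℝ) × ℝ) × ℝ) × ℍ => G (VPR_e D x.1, (x.2 : ℂ))) {x | |x.1.1.2| ≤ k} := by
  intro x hx
  have h1 : ContinuousOn (fun x : ((SL(2, ℝ) × ℝ) × ℝ) × ℍ => (VPR_e D x.1, (x.2 : ℂ))) {x | |x.1.1.2| ≤ k} :=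
    (he.comp continuous_fst.continuousOn (fun y hy => hy)).prodMk (UpperHalfPlane.continuous_coe.comp continuous_snd).continuousOn
  exact ContinuousAt.comp_continuousWithinAt (f := fun x : ((SL(2, ℝ) × ℝ) × ℝ) × ℍ => (VPR_e D x.1, (x.2 : ℂ))) (g := G) (hG _ (VPR_dom D x.1 x.2)) (h1 x hx)

theorem NPR_1 {Γ : Subgroup SL(2, ℝ)} {k : ℝ} {B : ℕ → ℝ} {D : Dyn} (hNUB : NUB_stmt) (hNYA : NYA_stmt) (h : OKN Γ k B D)
    {ch : ℝ → ℝ} (hch : CH ch) (ζ ζ1 R : ℝ) :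
    ContinuousOn (fun x : ((SL(2, ℝ) × ℝ) × ℝ) × ℍ => psi D ch ζ ζ1 R x.1.2 x.1.1 x.2) {x | |x.1.1.2| ≤ k} ∧
    ContinuousOn (fun x : ((SL(2, ℝ) × ℝ) × ℝ) × ℍ => QU.lap (psi D ch ζ ζ1 R x.1.2 x.1.1) x.2) {x | |x.1.1.2| ≤ k} ∧
    ContinuousOn (fun x : ((SL(2, ℝ) × ℝ) × ℝ) × ℍ => fderiv ℝ (QU.onC (psi D ch ζ ζ1 R x.1.2 x.1.1)) (x.2 : ℂ)) {x | |x.1.1.2| ≤ k} ∧
    ContinuousOn (fun x : ((SL(2, ℝ) × ℝ) × ℝ) × ℍ => fderiv ℝ (fderiv ℝ (QU.onC (psi D ch ζ ζ1 R x.1.2 x.1.1))) (x.2 : ℂ)) {x | |x.1.1.2| ≤ k} := by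
  have he := NPR_ec hNUB hNYA h
  have h4 : ContinuousOn (fun x : ((SL(2, ℝ) × ℝ) × ℝ) × ℍ => fderiv ℝ (fderiv ℝ (QU.onC (psi D ch ζ ζ1 R x.1.2 x.1.1))) (x.2 : ℂ)) {x | |x.1.1.2| ≤ k} := by
    refine (NPR_comp he (fun x hx => (VPR_D2 hch.smooth (cR ch ζ R) (R ^ (1 - 2 * ζ1)) R hx).continuousAt)).congr fun x hx => ?_
    exact (VPR_onC D ch ζ ζ1 R x.1.2 x.1.1 x.2).fderiv.fderiv_eq
  refine ⟨?_, ?_, ?_, h4⟩
  · refine (NPR_comp he (fun x hx => (VPR_Gs hch.smooth (cR ch ζ R) (R ^ (1 - 2 * ζ1)) R hx).continuousAt)).congr fun x hx => ?_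
    exact VPR_psi D ch ζ ζ1 R x.1.2 x.1.1 x.2
  · unfold QU.lap
    have h5 : Continuous fun x : ((SL(2, ℝ) × ℝ) × ℝ) × ℍ => -(x.2.im ^ 2) := ((UpperHalfPlane.continuous_im.comp continuous_snd).pow 2).neg
    exact h5.continuousOn.smul (((h4.clm_apply continuousOn_const).clm_apply continuousOn_const).add
      ((h4.clm_apply continuousOn_const).clm_apply continuousOn_const))
  · refine (NPR_comp he (fun x hx => (VPR_D1 hch.smooth (cR ch ζ R) (R ^ (1 - 2 * ζ1)) R hx).continuousAt)).congr fun x hx => ?_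
    exact (VPR_onC D ch ζ ζ1 R x.1.2 x.1.1 x.2).fderiv_eq

theorem NPR_5 {Γ : Subgroup SL(2, ℝ)} {k : ℝ} {B : ℕ → ℝ} {D : Dyn} (hNUB : NUB_stmt) (hNYA : NYA_stmt) (h : OKN Γ k B D)
    {ch : ℝ → ℝ} (hch : CH ch) (ζ ζ1 R : ℝ) :
    ContinuousOn (fun x : ((SL(2, ℝ) × ℝ) × ℝ) × ℂ => pv D ch ζ ζ1 R x.1.2 x.1.1 x.2) {x | |x.1.1.2| ≤ k} := by
  have he := NPR_ec hNUB hNYA h
  have h1 : ContinuousOn (fun x : ((SL(2, ℝ) × ℝ) × ℝ) × ℂ => (VPR_e D x.1, x.2)) {x | |x.1.1.2| ≤ k} :=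
    (he.comp continuous_fst.continuousOn (fun y hy => hy)).prodMk continuous_snd.continuousOn
  refine ((VPR_Fs hch.smooth (cR ch ζ R) (R ^ (1 - 2 * ζ1)) R).continuous.comp_continuousOn h1).congr fun x hx => ?_
  exact VPR_pv D ch ζ ζ1 R x.1.2 x.1.1 x.2

theorem NPR_Er (hNRM : NRM_stmt) {ch : ℝ → ℝ} {ζ ζ1 R k : ℝ} {Γ : Subgroup SL(2, ℝ)} {B : ℕ → ℝ} {D : Dyn} (hch : CH ch) (hζ : 0 < ζ1) (hζ1 : ζ1 ≤ 1 / 8) (hR : 2 ≤ R)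
    (h : OKN Γ k B D) (p : SL(2, ℝ) × ℝ) (hp : |p.2| ≤ k) (t : ℝ) (v : ℂ) : Er D ch ζ ζ1 R t p v =
    VPR_Q (cR ch ζ R) R (D.a p.2 t p.1) (Complex.exp (Complex.I * (R : ℂ) * (((D.S p.2 t p.1 + rho D.U p.2 (D.fl p.2 t p.1) * v.re : ℝ) : ℂ) + qf (D.M p.2 t p.1) v / 2)))
      (VPR_X ch (R ^ (1 - 2 * ζ1)) v) (lp2 (VPR_X ch (R ^ (1 - 2 * ζ1))) v) (r3 D t p v) (fderiv ℝ (VPR_X ch (R ^ (1 - 2 * ζ1))) v)
      (rho D.U p.2 (D.fl p.2 t p.1)) (kap D.U p.2 (D.fl p.2 t p.1)) (D.M p.2 t p.1) v :=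
  (hNRM ch ζ ζ1 R k Γ B D p t hch hζ hζ1 hR h hp).1 v

theorem NPR_6 {Γ : Subgroup SL(2, ℝ)} {k : ℝ} {B : ℕ → ℝ} {D : Dyn} (hNRM : NRM_stmt) (hNUB : NUB_stmt) (hNYA : NYA_stmt) (h : OKN Γ k B D)
    {ch : ℝ → ℝ} (hch : CH ch) (ζ : ℝ) {ζ1 R : ℝ} (hζ : 0 < ζ1) (hζ1 : ζ1 ≤ 1 / 8) (hR : 2 ≤ R) :
    ContinuousOn (fun x : ((SL(2, ℝ) × ℝ) × ℝ) × ℂ => Er D ch ζ ζ1 R x.1.2 x.1.1 x.2) {x | |x.1.1.2| ≤ k} := by
  set q : ℝ := R ^ (1 - 2 * ζ1) with hq0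
  have hk1 : 1 < q := Real.one_lt_rpow (by linarith) (by linarith)
  intro x hx
  by_cases hv : ‖x.2‖ < 1
  · -- the formula
    have hs : {x : ((SL(2, ℝ) × ℝ) × ℝ) × ℂ | |x.1.1.2| ≤ k ∧ ‖x.2‖ < 1} ∈ 𝓝[{x | |x.1.1.2| ≤ k}] x := by
      have h2 : {x : ((SL(2, ℝ) × ℝ) × ℝ) × ℂ | ‖x.2‖ < 1} ∈ 𝓝 x := (isOpen_lt (by fun_prop) continuous_const).mem_nhds hv
      filter_upwards [self_mem_nhdsWithin, mem_nhdsWithin_of_mem_nhds h2] with y hy1 hy2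
      exact ⟨hy1, hy2⟩
    refine ContinuousWithinAt.mono_of_mem_nhdsWithin ?_ hs
    refine ContinuousOn.continuousWithinAt ?_ ⟨hx, hv⟩
    clear hs
    set s : Set (((SL(2, ℝ) × ℝ) × ℝ) × ℂ) := {x : ((SL(2, ℝ) × ℝ) × ℝ) × ℂ | |x.1.1.2| ≤ k ∧ ‖x.2‖ < 1} with hs
    have hlift : ∀ {E : Type} [TopologicalSpace E] (f : (SL(2, ℝ) × ℝ) × ℝ → E), ContinuousOn f {y | |y.1.2| ≤ k} → ContinuousOn (fun x : ((SL(2, ℝ) × ℝ) × ℝ) × ℂ => f x.1) s :=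
      fun f hf => VPR_cpo f (fun x : ((SL(2, ℝ) × ℝ) × ℝ) × ℂ => x.1) s {y | |y.1.2| ≤ k} hf continuous_fst.continuousOn (fun x hx => hx.1)
    have hV : ContinuousOn (fun x : ((SL(2, ℝ) × ℝ) × ℝ) × ℂ => x.2) s := continuous_snd.continuousOn
    have hfl := hlift _ (NPR_fl h)
    have hM : ∀ i j, ContinuousOn (fun x : ((SL(2, ℝ) × ℝ) × ℝ) × ℂ => D.M x.1.1.2 x.1.2 x.1.1.1 i j) s := fun i j => hlift _ (NPR_M hNYA h i j)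
    have hr := hlift _ (NPR_rho hNUB h)
    have hkp := hlift _ (NPR_kap hNUB h)
    have ha := hlift _ (NPR_a h)
    have hS := hlift _ (NPR_S h)
    have hX := (VPR_Xs hch.smooth q).continuous.comp_continuousOn hV
    have hd1 : Continuous (fderiv ℝ (VPR_X ch q)) := (VPR_Xs hch.smooth q).continuous_fderiv (by simp)
    have hd2 : Continuous (fderiv ℝ (fderiv ℝ (VPR_X ch q))) :=
      ((VPR_Xs hch.smooth q).fderiv_right (m := ∞) (by simp)).continuous_fderiv (by simp)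
    have hdX := hd1.comp_continuousOn hV
    have hlc : Continuous (lp2 (VPR_X ch q)) := by
      unfold lp2
      exact ((hd2.clm_apply continuous_const).clm_apply continuous_const).add ((hd2.clm_apply continuous_const).clm_apply continuous_const)
    have hlX := hlc.comp_continuousOn hV
    obtain ⟨C, -, hU⟩ := hNUB k h.pot.kpos.1
    obtain ⟨-, -, -, ⟨hn1, -, hhess, -⟩, -⟩ := hU Γ B D.U h.pot
    have hUc : Continuous D.U := VPR_Uc h.pot.smooth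
    have hu : ContinuousOn (fun x : ((SL(2, ℝ) × ℝ) × ℝ) × ℂ => D.U (D.fl x.1.1.2 x.1.2 x.1.1.1 • I)) s :=
      VPR_cpc (fun g : SL(2, ℝ) => D.U (g • I)) (fun x : ((SL(2, ℝ) × ℝ) × ℝ) × ℂ => D.fl x.1.1.2 x.1.2 x.1.1.1) s
        (hUc.comp (continuous_id.smul continuous_const)) hfl
    have hnn : ContinuousOn (fun x : ((SL(2, ℝ) × ℝ) × ℝ) × ℂ => n1 D.U (D.fl x.1.1.2 x.1.2 x.1.1.1)) s :=
      VPR_cpc (n1 D.U) (fun x : ((SL(2, ℝ) × ℝ) × ℝ) × ℂ => D.fl x.1.1.2 x.1.2 x.1.1.1) s hn1 hfl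
    have hh : ∀ i j, ContinuousOn (fun x : ((SL(2, ℝ) × ℝ) × ℝ) × ℂ => hess D.U (D.fl x.1.1.2 x.1.2 x.1.1.1) i j) s := fun i j =>
      VPR_cpc (fun g : SL(2, ℝ) => hess D.U g i j) (fun x : ((SL(2, ℝ) × ℝ) × ℝ) × ℂ => D.fl x.1.1.2 x.1.2 x.1.1.1) s (hhess i j) hfl
    have hN : ∀ i j, ContinuousOn (fun x : ((SL(2, ℝ) × ℝ) × ℝ) × ℂ => KK D.U x.1.1.2 (D.fl x.1.1.2 x.1.2 x.1.1.1) i j) s := by
      intro i j
      unfold KK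
      refine VPR_cpc (fun r : ℝ => (r : ℂ)) _ s Complex.continuous_ofReal ?_
      refine ((hh i j).div_const 2).add ?_
      by_cases hij : i = 1 ∧ j = 1
      · simp only [hij, if_true, and_self]
        exact hr.pow 2
      · simp only [hij, if_false]
        exact continuousOn_const
    have hug : ContinuousOn (fun x : ((SL(2, ℝ) × ℝ) × ℝ) × ℂ => Ug D.U (D.fl x.1.1.2 x.1.2 x.1.1.1) x.2) s := by
      unfold Ug
      have h5 : ContinuousOn (fun x : ((SL(2, ℝ) × ℝ) × ℝ) × ℂ => cdi x.2) s :=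
        VPR_cpo cdi (fun x : ((SL(2, ℝ) × ℝ) × ℝ) × ℂ => x.2) s (Metric.ball 0 2) VCD_contOn hV (fun x hx => by
          rw [mem_ball_zero_iff]
          exact hx.2.trans (by norm_num))
      exact VPR_cpc D.U _ s hUc (hfl.smul h5)
    have hq : ContinuousOn (fun x : ((SL(2, ℝ) × ℝ) × ℝ) × ℂ => r3 D x.1.2 x.1.1 x.2) s := by
      simp only [VPR_r3]
      exact VPR_qc hM hN hr hkp hu hnn hug hV
    have hex : ContinuousOn (fun x : ((SL(2, ℝ) × ℝ) × ℝ) × ℂ => Complex.exp (Complex.I * (R : ℂ) *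
        (((D.S x.1.1.2 x.1.2 x.1.1.1 + rho D.U x.1.1.2 (D.fl x.1.1.2 x.1.2 x.1.1.1) * x.2.re : ℝ) : ℂ) + qf (D.M x.1.1.2 x.1.2 x.1.1.1) x.2 / 2))) s := by
      have h5 := VPR_qf hM hV
      have h6 : ContinuousOn (fun x : ((SL(2, ℝ) × ℝ) × ℝ) × ℂ => D.S x.1.1.2 x.1.2 x.1.1.1 + rho D.U x.1.1.2 (D.fl x.1.1.2 x.1.2 x.1.1.1) * x.2.re) s :=
        hS.add (hr.mul (Complex.continuous_re.comp_continuousOn hV))
      have h7 := Complex.continuous_ofReal.comp_continuousOn h6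
      exact Complex.continuous_exp.comp_continuousOn (continuousOn_const.mul (h7.add (h5.div_const 2)))
    refine (VPR_Qc (cR ch ζ R) R hM hr hkp ha hex hX hlX hq hdX hV).congr fun x hx => ?_
    exact NPR_Er hNRM hch hζ hζ1 hR h x.1.1 hx.1 x.1.2 x.2
  · -- zero
    have h0 : ∀ y ∈ {x : ((SL(2, ℝ) × ℝ) × ℝ) × ℂ | |x.1.1.2| ≤ k}, 1 < q * ‖y.2‖ ^ 2 → Er D ch ζ ζ1 R y.1.2 y.1.1 y.2 = 0 := by
      intro y hy hy1
      obtain ⟨h1, h2, h3⟩ := VPR_z0 hch hy1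
      rw [NPR_Er hNRM hch hζ hζ1 hR h y.1.1 hy y.1.2 y.2, h1, h2, h3]
      exact VPR_Q0 _ _ _ _ _ _ _ _ _
    have hv1 : 1 < q * ‖x.2‖ ^ 2 := by
      have h5 : 1 ≤ ‖x.2‖ := not_lt.1 hv
      have h6 : 1 ≤ ‖x.2‖ ^ 2 := one_le_pow₀ h5
      nlinarith
    have h7 : {x : ((SL(2, ℝ) × ℝ) × ℝ) × ℂ | 1 < q * ‖x.2‖ ^ 2} ∈ 𝓝 x := (isOpen_lt continuous_const (by fun_prop)).mem_nhds hv1
    refine ContinuousWithinAt.congr_of_eventuallyEq (f := fun _ => (0 : ℂ)) continuousWithinAt_const ?_ (h0 x hx hv1)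
    filter_upwards [self_mem_nhdsWithin, mem_nhdsWithin_of_mem_nhds h7] with y hy1 hy2
    exact h0 y hy1 hy2

/-- equivariance of the data -/
theorem NPR_eqv {Γ : Subgroup SL(2, ℝ)} {k : ℝ} {B : ℕ → ℝ} {D : Dyn} (hNUB : NUB_stmt) (hNYA : NYA_stmt) (hNHA : NHA_stmt) (h : OKN Γ k B D)
    (γ : Γ) (E : ℝ) (g : SL(2, ℝ)) (t : ℝ) : D.fl E t ((γ : SL(2, ℝ)) * g) = (γ : SL(2, ℝ)) * D.fl E t g ∧
      D.Y E t ((γ : SL(2, ℝ)) * g) = D.Y E t g ∧ D.P E t ((γ : SL(2, ℝ)) * g) = D.P E t g ∧ D.S E t ((γ : SL(2, ℝ)) * g) = D.S E t g ∧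
      D.a E t ((γ : SL(2, ℝ)) * g) = D.a E t g := by
  by_cases hE : |E| ≤ k
  · obtain ⟨C', -, hA⟩ := hNHA k h.pot.kpos.1
    have hfl : ∀ t, D.fl E t ((γ : SL(2, ℝ)) * g) = (γ : SL(2, ℝ)) * D.fl E t g := fun t => (hA Γ B D h E 0 t hE g).2.1 γ
    obtain ⟨C, hC, hU⟩ := hNUB k h.pot.kpos.1
    obtain ⟨-, hb, hr, -, hinv, -⟩ := hU Γ B D.U h.pot
    have hUi : ∀ x : SL(2, ℝ), D.U (((γ : SL(2, ℝ)) * x) • I) = D.U (x • I) := fun x => by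
      rw [mul_smul]
      exact h.pot.inv.2 γ (x • I)
    have hKK : ∀ x : SL(2, ℝ), KK D.U E ((γ : SL(2, ℝ)) * x) = KK D.U E x := fun x => by
      obtain ⟨-, -, -, h4, h5, -⟩ := hinv γ x E
      unfold KK
      rw [h4, h5]
    have hsol : VPR_sol (fun t => kap D.U E (D.fl E t g)) (fun t => KK D.U E (D.fl E t g)) (fun t => D.Y E t g) (fun t => D.P E t g) :=
      ⟨fun t i j => h.dY E t g hE i j, fun t i j => h.dP E t g hE i j⟩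
    have hsol' : VPR_sol (fun t => kap D.U E (D.fl E t g)) (fun t => KK D.U E (D.fl E t g)) (fun t => D.Y E t ((γ : SL(2, ℝ)) * g)) (fun t => D.P E t ((γ : SL(2, ℝ)) * g)) := by
      constructor
      · intro t i j
        have h1 := h.dY E t ((γ : SL(2, ℝ)) * g) hE i j
        rw [hfl t, (hinv γ (D.fl E t g) E).2.2.2.2.2] at h1
        exact h1
      · intro t i j
        have h1 := h.dP E t ((γ : SL(2, ℝ)) * g) hE i j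
        rw [hfl t, (hinv γ (D.fl E t g) E).2.2.2.2.2, hKK] at h1
        exact h1
    have hκ : ∀ t, |kap D.U E (D.fl E t g)| ≤ C + C ^ 2 := fun t => ((hr E (D.fl E t g) hE).2.2.2.1).trans (by nlinarith [sq_nonneg C])
    have hK : ∀ t i j, ‖KK D.U E (D.fl E t g) i j‖ ≤ C + C ^ 2 := by
      intro t i j
      obtain ⟨r1, r2, -⟩ := hr E (D.fl E t g) hE
      have h1 := (hb (D.fl E t g)).2.2.2.1 i j
      have h1' := abs_le.1 h1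
      have hC0 : 0 < C := lt_of_lt_of_le one_pos hC
      have r0 : 0 ≤ rho D.U E (D.fl E t g) := le_trans (by positivity) r1
      unfold KK
      rw [Complex.norm_real, Real.norm_eq_abs, abs_le]
      have h2 : rho D.U E (D.fl E t g) ^ 2 ≤ C ^ 2 := pow_le_pow_left₀ r0 r2 2
      have h3 : 0 ≤ rho D.U E (D.fl E t g) ^ 2 := sq_nonneg _
      have h4 : 1 ≤ C ^ 2 := one_le_pow₀ hC
      by_cases hij : i = 1 ∧ j = 1
      · rw [if_pos hij]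
        constructor <;> linarith [h1'.1, h1'.2]
      · rw [if_neg hij]
        constructor <;> linarith [h1'.1, h1'.2]
    have hYP := NPR_uniq hκ hK hsol' hsol (by
      show D.Y E 0 ((γ : SL(2, ℝ)) * g) = D.Y E 0 g
      rw [h.Y0, h.Y0]) (by
      show D.P E 0 ((γ : SL(2, ℝ)) * g) = D.P E 0 g
      rw [h.P0, h.P0])
    have hM : ∀ t, D.M E t ((γ : SL(2, ℝ)) * g) = D.M E t g := fun t => by
      have h1 : D.Y E t ((γ : SL(2, ℝ)) * g) = D.Y E t g := (hYP t).1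
      have h2 : D.P E t ((γ : SL(2, ℝ)) * g) = D.P E t g := (hYP t).2
      unfold Dyn.M
      rw [h1, h2]
    refine ⟨hfl t, (hYP t).1, (hYP t).2, ?_, ?_⟩
    · refine VPR_cst (f := fun t => D.S E t ((γ : SL(2, ℝ)) * g)) (g := fun t => D.S E t g) (f' := fun t => (rho D.U E (D.fl E t g) ^ 2 + D.U (D.fl E t g • I)) / 2)
        (fun t => ?_) (fun t => h.dS E t g hE) ?_ t
      · have h1 := h.dS E t ((γ : SL(2, ℝ)) * g) hE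
        rw [hfl t, (hinv γ (D.fl E t g) E).2.2.2.2.1, hUi] at h1
        exact h1
      · show D.S E 0 ((γ : SL(2, ℝ)) * g) = D.S E 0 g
        rw [h.S0, h.S0]
    · refine VPR_quo (f := fun t => D.a E t ((γ : SL(2, ℝ)) * g)) (g := fun t => D.a E t g) (m := fun t => -(1 / 2) * Matrix.trace (D.M E t g))
        (fun t => ?_) (fun t => h.da E t g hE) (fun t h0 => ?_) ?_ t
      · have h1 := h.da E t ((γ : SL(2, ℝ)) * g) hE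
        rw [hM t] at h1
        exact h1
      · have h1 := (hNYA Γ k B D h E t g hE).2.2.2.2.1
        have h0' : D.a E t g = 0 := h0
        rw [h0'] at h1
        simp at h1
      · show D.a E 0 ((γ : SL(2, ℝ)) * g) = D.a E 0 g
        rw [h.a0, h.a0]
  · have hE' : k < |E| := not_le.1 hE
    obtain ⟨a1, a2, a3, a4, a5⟩ := h.out E t ((γ : SL(2, ℝ)) * g) hE'
    obtain ⟨b1, b2, b3, b4, b5⟩ := h.out E t g hE'
    rw [a1, a2, a3, a4, a5, b1, b2, b3, b4, b5]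
    exact ⟨rfl, rfl, rfl, rfl, rfl⟩

theorem NPR_proof (hNRM : NRM_stmt) (hNUB : NUB_stmt) (hNYA : NYA_stmt) (hNHA : NHA_stmt) : NPR_stmt := by
  intro ch ζ ζ1 R k Γ B D hch hζ hζ1 hR h
  obtain ⟨h1, h2, h3, h4⟩ := NPR_1 hNUB hNYA h hch ζ ζ1 R
  refine ⟨h1, h2, h3, h4, NPR_5 hNUB hNYA h hch ζ ζ1 R, NPR_6 hNRM hNUB hNYA h hch ζ hζ hζ1 hR, fun γ p t => ?_⟩
  obtain ⟨C, -, hU⟩ := hNUB k h.pot.kpos.1
  have hinv := (hU Γ B D.U h.pot).2.2.2.2.1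
  have hpv : ∀ s, pv D ch ζ ζ1 R s ((γ : SL(2, ℝ)) * p.1, p.2) = pv D ch ζ ζ1 R s p := by
    intro s
    obtain ⟨e1, e2, e3, e4, e5⟩ := NPR_eqv hNUB hNYA hNHA h γ p.2 p.1 s
    have hM : D.M p.2 s ((γ : SL(2, ℝ)) * p.1) = D.M p.2 s p.1 := by
      unfold Dyn.M
      rw [e2, e3]
    have hrho := (hinv γ (D.fl p.2 s p.1) p.2).2.2.2.2.1
    funext v
    unfold pv
    show ((cR ch ζ R * ch (R ^ (1 - 2 * ζ1) * ‖v‖ ^ 2) : ℝ) : ℂ) * D.a p.2 s ((γ : SL(2, ℝ)) * p.1) *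
      Complex.exp (Complex.I * (R : ℂ) * (((D.S p.2 s ((γ : SL(2, ℝ)) * p.1) + rho D.U p.2 (D.fl p.2 s ((γ : SL(2, ℝ)) * p.1)) * v.re : ℝ) : ℂ) +
        qf (D.M p.2 s ((γ : SL(2, ℝ)) * p.1)) v / 2)) = _
    rw [e5, e4, hM, e1, hrho]
  obtain ⟨e1, e2, e3, e4, e5⟩ := NPR_eqv hNUB hNYA hNHA h γ p.2 p.1 t
  refine ⟨e1, hpv t, ?_, fun z => ?_⟩
  · obtain ⟨i1, -, -, -, i5, i6⟩ := hinv γ (D.fl p.2 t p.1) p.2
    funext v
    have hpv' : ∀ s, pv D ch ζ ζ1 R s ((γ : SL(2, ℝ)) * p.1, p.2) v = pv D ch ζ ζ1 R s p v := fun s => congrFun (hpv s) v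
    unfold Er
    show Complex.I * deriv (fun s => pv D ch ζ ζ1 R s ((γ : SL(2, ℝ)) * p.1, p.2) v) t -
      Complex.I * fderiv ℝ (pv D ch ζ ζ1 R t ((γ : SL(2, ℝ)) * p.1, p.2)) v (XV (rho D.U p.2 (D.fl p.2 t ((γ : SL(2, ℝ)) * p.1))) (kap D.U p.2 (D.fl p.2 t ((γ : SL(2, ℝ)) * p.1))) v) -
      Lg D.U R (D.fl p.2 t ((γ : SL(2, ℝ)) * p.1)) (pv D ch ζ ζ1 R t ((γ : SL(2, ℝ)) * p.1, p.2)) v = _
    simp only [hpv']
    rw [hpv t, e1, i5, i6]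
    unfold Lg
    rw [i1]
  · unfold psi
    show pv D ch ζ ζ1 R t ((γ : SL(2, ℝ)) * p.1, p.2) (cd ((D.fl p.2 t ((γ : SL(2, ℝ)) * p.1))⁻¹ • γ • z)) = _
    have h5 : (((γ : SL(2, ℝ)) * D.fl p.2 t p.1)⁻¹ • (γ • z) : ℍ) = (D.fl p.2 t p.1)⁻¹ • z := by
      have h2 : (γ • z : ℍ) = (γ : SL(2, ℝ)) • z := rfl
      rw [h2, mul_inv_rev, mul_smul, inv_smul_smul]
    rw [hpv t, e1, h5]

end

end Pool.Agent.VN
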